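import Mathlib

set_option autoImplicit false

namespace Pool.Agent.MP_6f21ce_an

/-- Exponents: `s 0 = 1`, `s (k+1) = 4 ^ s k`. -/
def s : ℕ → ℕ
  | 0 => 1
  | k + 1 => 4 ^ s k

def q (k : ℕ) : ℕ := 2 ^ s k

lemma s_succ (k : ℕ) : s (k + 1) = 4 ^ s k := rfl

lemma two_mul_lt_four_pow (x : ℕ) : 2 * x + 2 ≤ 4 ^ x + 1 := by
  induction x with
  | zero => norm_num
  | succ n ih =>
    rw [pow_succ]
    have : 1 ≤ 4 ^ n := Nat.one_le_pow _ _ (by norm_num)
    omega

lemma s_growth (k : ℕ) : 2 * s k + 1 ≤ s (k + 1) := by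
  rw [s_succ]
  have := two_mul_lt_four_pow (s k)
  omega

lemma s_ge (k : ℕ) : k + 1 ≤ s k := by
  induction k with
  | zero => exact le_rfl
  | succ n ih =>
    have := s_growth n
    omega

lemma s_lt (k : ℕ) : s k < s (k + 1) := by
  have := s_growth k
  omega

lemma s_strictMono : StrictMono s := strictMono_nat_of_lt_succ s_lt

lemma s_add (k j : ℕ) : s k + j ≤ s (k + j) := by
  induction j with
  | zero => exact le_rfl
  | succ j ih =>
    have := s_lt (k + j)
    have h2 : s (k + (j + 1)) = s (k + j + 1) := rfl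
    rw [h2]
    omega

lemma summable_s (k : ℕ) : Summable (fun j => (1 / 2 : ℝ) ^ s (j + k)) := by
  refine Summable.of_nonneg_of_le (fun j => by positivity) (fun j => ?_)
    (summable_geometric_of_lt_one (r := (1 / 2 : ℝ)) (by norm_num) (by norm_num))
  apply pow_le_pow_of_le_one (by norm_num) (by norm_num)
  have := s_ge (j + k)
  omega

noncomputable def tail (k : ℕ) : ℝ := ∑' j, (1 / 2 : ℝ) ^ s (j + k)

noncomputable def α : ℝ := ∑' j, (1 / 2 : ℝ) ^ s j

lemma tail_pos (k : ℕ) : 0 < tail k := by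
  apply (summable_s k).tsum_pos (fun j => by positivity) 0
  positivity

lemma tail_le (k : ℕ) : tail k ≤ 2 * (1 / 2 : ℝ) ^ s k := by
  have h2 : HasSum (fun j : ℕ => (1 / 2 : ℝ) ^ s k * (1 / 2 : ℝ) ^ j) ((1 / 2 : ℝ) ^ s k * 2) := by
    have := (hasSum_geometric_of_lt_one (r := (1 / 2 : ℝ)) (by norm_num) (by norm_num)).mul_left
      ((1 / 2 : ℝ) ^ s k)
    norm_num at this ⊢
    exact this
  have h3 : tail k ≤ ∑' j : ℕ, (1 / 2 : ℝ) ^ s k * (1 / 2 : ℝ) ^ j := by
    apply Summable.tsum_le_tsum _ (summable_s k) h2.summable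
    intro j
    rw [← pow_add]
    apply pow_le_pow_of_le_one (by norm_num) (by norm_num)
    have := s_add k j
    rw [add_comm k j] at this
    exact this
  rw [h2.tsum_eq] at h3
  linarith

/-- Numerators. -/
def p (k : ℕ) : ℕ := ∑ j ∈ Finset.range (k + 1), 2 ^ (s k - s j)

lemma q_mul_sum (k : ℕ) : (q k : ℝ) * ∑ j ∈ Finset.range (k + 1), (1 / 2 : ℝ) ^ s j = p k := by
  unfold q p
  push_cast
  rw [Finset.mul_sum]
  apply Finset.sum_congr rfl
  intro j hj
  have hj' : s j ≤ s k := s_strictMono.monotone (by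
    have := Finset.mem_range.1 hj
    omega)
  obtain ⟨d, hd⟩ := Nat.exists_eq_add_of_le hj'
  rw [hd, Nat.add_sub_cancel_left, pow_add, one_div, inv_pow]
  field_simp

lemma q_mul_alpha (k : ℕ) : (q k : ℝ) * α - p k = q k * tail (k + 1) := by
  have h := (summable_s 0).sum_add_tsum_nat_add (k + 1)
  simp only [add_zero] at h
  have h2 : α = ∑ j ∈ Finset.range (k + 1), (1 / 2 : ℝ) ^ s j + tail (k + 1) := by
    unfold α tail
    rw [← h]
  rw [h2, mul_add, q_mul_sum]
  ring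

/-- `δ k = q k * α - p k`. -/
noncomputable def δ (k : ℕ) : ℝ := q k * α - p k

lemma q_pos (k : ℕ) : (0 : ℝ) < q k := by
  unfold q
  positivity

lemma δ_pos (k : ℕ) : 0 < δ k := by
  unfold δ
  rw [q_mul_alpha]
  exact mul_pos (q_pos k) (tail_pos _)

/-- the ratio `q k / q (k+1)` -/
noncomputable def e (k : ℕ) : ℝ := (1 / 2 : ℝ) ^ (s (k + 1) - s k)

lemma e_eq (k : ℕ) : (q k : ℝ) * (1 / 2 : ℝ) ^ s (k + 1) = e k := by
  unfold q e
  obtain ⟨d, hd⟩ := Nat.exists_eq_add_of_le (s_lt k).le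
  rw [hd, Nat.add_sub_cancel_left, pow_add]
  push_cast
  rw [← mul_assoc, ← mul_pow]
  norm_num

lemma δ_le (k : ℕ) : δ k ≤ 2 * e k := by
  unfold δ
  rw [q_mul_alpha]
  calc (q k : ℝ) * tail (k + 1) ≤ q k * (2 * (1 / 2 : ℝ) ^ s (k + 1)) :=
        mul_le_mul_of_nonneg_left (tail_le _) (q_pos k).le
    _ = 2 * ((q k : ℝ) * (1 / 2 : ℝ) ^ s (k + 1)) := by ring
    _ = 2 * e k := by rw [e_eq]

lemma e_pos (k : ℕ) : 0 < e k := by unfold e; positivity

lemma e_add (k j : ℕ) : e (k + j) ≤ e k * (1 / 2) ^ j := by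
  induction j with
  | zero => simp
  | succ j ih =>
    have h1 : e (k + j + 1) ≤ e (k + j) * (1 / 2) := by
      unfold e
      rw [← pow_succ]
      apply pow_le_pow_of_le_one (by norm_num) (by norm_num)
      have := s_growth (k + j)
      have := s_growth (k + j + 1)
      omega
    calc e (k + (j + 1)) = e (k + j + 1) := by rw [add_assoc]
      _ ≤ e (k + j) * (1 / 2) := h1
      _ ≤ e k * (1 / 2) ^ j * (1 / 2) := by
          apply mul_le_mul_of_nonneg_right ih (by norm_num)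
      _ = e k * (1 / 2) ^ (j + 1) := by rw [pow_succ]; ring

lemma summable_δ (k : ℕ) : Summable (fun j => δ (j + k)) := by
  refine Summable.of_nonneg_of_le (fun j => (δ_pos _).le) (fun j => ?_)
    ((summable_geometric_of_lt_one (r := (1 / 2 : ℝ)) (by norm_num) (by norm_num)).mul_left
      (2 * e k))
  calc δ (j + k) ≤ 2 * e (j + k) := δ_le _
    _ = 2 * e (k + j) := by rw [add_comm]
    _ ≤ 2 * (e k * (1 / 2) ^ j) := by linarith [e_add k j]
    _ = 2 * e k * (1 / 2) ^ j := by ring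

noncomputable def β : ℝ := ∑' j, δ j

noncomputable def btail (k : ℕ) : ℝ := ∑' j, δ (j + k)

lemma btail_pos (k : ℕ) : 0 < btail k :=
  (summable_δ k).tsum_pos (fun j => (δ_pos _).le) 0 (δ_pos _)

lemma btail_le (k : ℕ) : btail k ≤ 4 * e k := by
  have h2 : HasSum (fun j : ℕ => 2 * e k * (1 / 2 : ℝ) ^ j) (2 * e k * 2) := by
    have := (hasSum_geometric_of_lt_one (r := (1 / 2 : ℝ)) (by norm_num) (by norm_num)).mul_left
      (2 * e k)
    norm_num at this ⊢
    exact this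
  have h3 : btail k ≤ ∑' j : ℕ, 2 * e k * (1 / 2 : ℝ) ^ j := by
    apply Summable.tsum_le_tsum _ (summable_δ k) h2.summable
    intro j
    calc δ (j + k) ≤ 2 * e (j + k) := δ_le _
      _ = 2 * e (k + j) := by rw [add_comm]
      _ ≤ 2 * (e k * (1 / 2) ^ j) := by linarith [e_add k j]
      _ = 2 * e k * (1 / 2) ^ j := by ring
  rw [h2.tsum_eq] at h3
  linarith

def nn (k : ℕ) : ℕ := ∑ j ∈ Finset.range (k + 1), q j
def mm (k : ℕ) : ℕ := ∑ j ∈ Finset.range (k + 1), p j

lemma beta_sub (k : ℕ) : β - (nn k * α - mm k) = btail (k + 1) := by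
  have h := (summable_δ 0).sum_add_tsum_nat_add (k + 1)
  simp only [add_zero] at h
  have h2 : β = ∑ j ∈ Finset.range (k + 1), δ j + btail (k + 1) := by
    unfold β btail
    rw [← h]
  have h3 : ∑ j ∈ Finset.range (k + 1), δ j = nn k * α - mm k := by
    unfold δ nn mm
    rw [Finset.sum_sub_distrib]
    push_cast
    rw [Finset.sum_mul]
  rw [h2, h3]
  ring

lemma alpha_pos : 0 < α := by
  have := tail_pos 0
  exact this

lemma alpha_le : α ≤ 1 := by
  have h := tail_le 0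
  have h2 : α = tail 0 := rfl
  rw [h2]
  refine h.trans ?_
  norm_num [s]

lemma p_odd (k : ℕ) : Odd (p k) := by
  unfold p
  rw [Finset.sum_range_succ, Nat.sub_self, pow_zero]
  apply Even.add_one
  apply Finset.even_sum
  intro j hj
  have : s j < s k := s_strictMono (Finset.mem_range.1 hj)
  exact (Nat.even_pow.2 ⟨even_two, by omega⟩)

lemma q_mul_e (k : ℕ) : (q k : ℝ) * e k ≤ (1 / 2) ^ k := by
  have h3 : ∀ x : ℕ, 1 ≤ x → 3 * x ≤ 4 ^ x := by
    intro x hx
    induction x, hx using Nat.le_induction with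
    | base => norm_num
    | succ n hn ih =>
      rw [pow_succ]
      omega
  have h4 := h3 (s k) (by have := s_ge k; omega)
  rw [← s_succ] at h4
  have h5 : (q k : ℝ) * e k = (1 / 2) ^ (s (k + 1) - 2 * s k) := by
    unfold q e
    obtain ⟨d, hd⟩ := Nat.exists_eq_add_of_le (show 2 * s k ≤ s (k + 1) by omega)
    rw [hd, Nat.add_sub_cancel_left, show 2 * s k + d - s k = s k + d by omega, pow_add]
    push_cast
    rw [← mul_assoc, ← mul_pow]
    norm_num
  rw [h5]
  apply pow_le_pow_of_le_one (by norm_num) (by norm_num)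
  have := s_ge k
  omega

lemma indep_one (i j : ℤ) (h : (i : ℝ) + j * α = 0) : i = 0 ∧ j = 0 := by
  have key : ∃ k : ℕ, |(j : ℝ)| * (2 * e k) < 1 := by
    obtain ⟨k, hk⟩ := exists_pow_lt_of_lt_one
      (show (0 : ℝ) < 1 / (2 * |(j : ℝ)| + 1) by positivity)
      (show (1 / 2 : ℝ) < 1 by norm_num)
    refine ⟨k, ?_⟩
    have h1 : e k ≤ (1 / 2) ^ k := by
      have h2 := q_mul_e k
      have h3 : (1 : ℝ) ≤ q k := by
        unfold q
        exact_mod_cast Nat.one_le_pow _ _ (by norm_num)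
      nlinarith [e_pos k]
    have h4 : e k < 1 / (2 * |(j : ℝ)| + 1) := lt_of_le_of_lt h1 hk
    rw [lt_div_iff₀ (by positivity)] at h4
    nlinarith [e_pos k, abs_nonneg (j : ℝ)]
  obtain ⟨k, hk⟩ := key
  have h1 : ((q k * i + j * p k : ℤ) : ℝ) = -(j * δ k) := by
    unfold δ
    push_cast
    have : (i : ℝ) = -(j * α) := by linarith
    rw [this]
    ring
  have h2 : |((q k * i + j * p k : ℤ) : ℝ)| < 1 := by
    rw [h1, abs_neg, abs_mul, abs_of_pos (δ_pos k)]
    exact lt_of_le_of_lt (mul_le_mul_of_nonneg_left (δ_le k) (abs_nonneg _)) hk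
  have h3 : (q k * i + j * p k : ℤ) = 0 := by
    have : |(q k * i + j * p k : ℤ)| < 1 := by exact_mod_cast h2
    exact Int.abs_lt_one_iff.1 this
  rw [h3] at h1
  have h4 : (j : ℝ) = 0 := by
    have : (j : ℝ) * δ k = 0 := by
      push_cast at h1
      linarith
    exact (mul_eq_zero.1 this).resolve_right (δ_pos k).ne'
  have h5 : j = 0 := by exact_mod_cast h4
  refine ⟨?_, h5⟩
  rw [h4] at h
  have : (i : ℝ) = 0 := by linarith
  exact_mod_cast this

lemma nn_succ (k : ℕ) : nn (k + 1) = nn k + q (k + 1) := by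
  unfold nn
  rw [Finset.sum_range_succ]

lemma q_lt (k : ℕ) : 2 * q k ≤ q (k + 1) := by
  unfold q
  rw [← pow_succ']
  exact Nat.pow_le_pow_right (by norm_num) (s_lt k)

lemma nn_le (k : ℕ) : nn k ≤ 2 * q k := by
  induction k with
  | zero => simp [nn]; omega
  | succ k ih =>
    rw [nn_succ]
    have := q_lt k
    omega

lemma beta_indep (u v : ℤ) : (u : ℝ) + v * α ≠ β := by
  intro h
  -- for all large k the integer combination vanishes
  have hI : ∀ k : ℕ, (((v - nn k) * p k + (u + mm k) * q k : ℤ) : ℝ) =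
      q k * btail (k + 1) - (v - nn k) * δ k := by
    intro k
    have h1 := beta_sub k
    rw [← h] at h1
    rw [← h1]
    unfold δ
    push_cast
    ring
  have hb : ∀ k : ℕ, |(((v - nn k) * p k + (u + mm k) * q k : ℤ) : ℝ)| ≤
      (8 + 2 * |(v : ℝ)|) * (1 / 2) ^ k := by
    intro k
    rw [hI]
    have hq1 : (1 : ℝ) ≤ q k := by
      unfold q
      exact_mod_cast Nat.one_le_pow _ _ (by norm_num)
    have e1 : |(q k : ℝ) * btail (k + 1)| ≤ 4 * (q k * e k) := by
      rw [abs_of_pos (mul_pos (q_pos k) (btail_pos _))]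
      have := btail_le (k + 1)
      have h2 : e (k + 1) ≤ e k * (1 / 2) ^ 1 := e_add k 1
      have h3 : e (k + 1) ≤ e k := by nlinarith [e_pos k]
      calc (q k : ℝ) * btail (k + 1) ≤ q k * (4 * e (k + 1)) :=
            mul_le_mul_of_nonneg_left this (q_pos k).le
        _ ≤ q k * (4 * e k) := by
            apply mul_le_mul_of_nonneg_left _ (q_pos k).le
            linarith
        _ = 4 * (q k * e k) := by ring
    have e2 : |((v : ℝ) - nn k) * δ k| ≤ (4 + 2 * |(v : ℝ)|) * (q k * e k) := by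
      rw [abs_mul, abs_of_pos (δ_pos k)]
      have h4 : |(v : ℝ) - nn k| ≤ |(v : ℝ)| + 2 * q k := by
        have h5 : (nn k : ℝ) ≤ 2 * q k := by exact_mod_cast nn_le k
        calc |(v : ℝ) - nn k| ≤ |(v : ℝ)| + |(nn k : ℝ)| := abs_sub _ _
          _ ≤ _ := by
            rw [abs_of_nonneg (show (0 : ℝ) ≤ (nn k : ℝ) by positivity)]; linarith
      calc |(v : ℝ) - nn k| * δ k ≤ (|(v : ℝ)| + 2 * q k) * (2 * e k) :=
            mul_le_mul h4 (δ_le k) (δ_pos k).le (by positivity)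
        _ ≤ (4 + 2 * |(v : ℝ)|) * (q k * e k) := by
            have : 0 ≤ |(v : ℝ)| * e k * (q k - 1) :=
              mul_nonneg (mul_nonneg (abs_nonneg _) (e_pos k).le) (by linarith)
            nlinarith
    calc |(q k : ℝ) * btail (k + 1) - (v - nn k) * δ k|
        ≤ |(q k : ℝ) * btail (k + 1)| + |((v : ℝ) - nn k) * δ k| := abs_sub _ _
      _ ≤ 4 * (q k * e k) + (4 + 2 * |(v : ℝ)|) * (q k * e k) := add_le_add e1 e2
      _ = (8 + 2 * |(v : ℝ)|) * (q k * e k) := by ring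
      _ ≤ (8 + 2 * |(v : ℝ)|) * (1 / 2) ^ k :=
          mul_le_mul_of_nonneg_left (q_mul_e k) (by positivity)
  obtain ⟨K, hK⟩ := exists_pow_lt_of_lt_one
    (show (0 : ℝ) < 1 / (8 + 2 * |(v : ℝ)| + 1) by positivity) (show (1 / 2 : ℝ) < 1 by norm_num)
  have hzero : ∀ k, K ≤ k → (v - nn k) * p k + (u + mm k) * q k = (0 : ℤ) := by
    intro k hk
    have h1 := hb k
    have h2 : (1 / 2 : ℝ) ^ k ≤ (1 / 2) ^ K :=
      pow_le_pow_of_le_one (by norm_num) (by norm_num) hk
    have h3 : (8 + 2 * |(v : ℝ)|) * (1 / 2) ^ k < 1 := by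
      have h4 : (1 / 2 : ℝ) ^ k < 1 / (8 + 2 * |(v : ℝ)| + 1) := lt_of_le_of_lt h2 hK
      rw [lt_div_iff₀ (by positivity)] at h4
      have : (0 : ℝ) < (1 / 2) ^ k := by positivity
      nlinarith
    have h5 := lt_of_le_of_lt h1 h3
    have h6 : |((v - nn k) * p k + (u + mm k) * q k : ℤ)| < 1 := by exact_mod_cast h5
    exact Int.abs_lt_one_iff.1 h6
  have hdvd : ∀ k, K ≤ k → (q k : ℤ) ∣ (nn k - v) := by
    intro k hk
    have h1 := hzero k hk
    have h2 : (q k : ℤ) ∣ (nn k - v) * p k := ⟨u + mm k, by linarith⟩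
    refine IsCoprime.dvd_of_dvd_mul_right ?_ h2
    unfold q
    push_cast
    apply IsCoprime.pow_left
    rw [Int.isCoprime_iff_gcd_eq_one]
    have := p_odd k
    have h3 : Nat.Coprime 2 (p k) := (Nat.coprime_two_left).2 this
    exact_mod_cast h3
  have hfin : ∀ k, K ≤ k → |v| < k → (nn k : ℤ) = v := by
    intro k hk hv
    have h1 := hdvd (k + 1) (by omega)
    rw [nn_succ] at h1
    push_cast at h1
    have h2 : (q (k + 1) : ℤ) ∣ nn k - v := by
      have : (nn k : ℤ) + q (k + 1) - v = (nn k - v) + q (k + 1) := by ring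
      rw [this] at h1
      exact (Int.dvd_add_left (dvd_refl _)).1 h1
    have h3 : |(nn k : ℤ) - v| < q (k + 1) := by
      have h4 := nn_le k
      have h6 : k + 1 ≤ q k := by
        unfold q
        calc k + 1 ≤ s k := s_ge k
          _ ≤ 2 ^ s k := Nat.lt_two_pow_self.le
      have h7 : 3 * q k ≤ q (k + 1) := by
        have h8 : s k + 2 ≤ s (k + 1) := by
          have := s_growth k
          have := s_ge k
          omega
        have h9 : 4 * q k ≤ q (k + 1) := by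
          unfold q
          have : 4 * 2 ^ s k = 2 ^ (s k + 2) := by rw [pow_add]; ring
          rw [this]
          exact Nat.pow_le_pow_right (by norm_num) h8
        omega
      have h10 : |(nn k : ℤ) - v| ≤ nn k + |v| := by
        calc |(nn k : ℤ) - v| ≤ |(nn k : ℤ)| + |v| := abs_sub _ _
          _ = nn k + |v| := by rw [abs_of_nonneg (by positivity)]
      have h11 : (nn k : ℤ) ≤ 2 * q k := by exact_mod_cast h4
      have h12 : (k : ℤ) + 1 ≤ q k := by exact_mod_cast h6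
      have h13 : 3 * (q k : ℤ) ≤ q (k + 1) := by exact_mod_cast h7
      linarith
    have h4 := Int.eq_zero_of_abs_lt_dvd h2 h3
    linarith
  obtain ⟨N, hN⟩ := exists_nat_gt (|v| : ℤ)
  have h1 := hfin (max K (N + 1)) (le_max_left _ _) (by
    have := le_max_right K (N + 1)
    have : ((N + 1 : ℕ) : ℤ) ≤ (max K (N + 1) : ℕ) := by exact_mod_cast this
    push_cast at this
    push_cast
    have hN' : |v| < (N : ℤ) := by exact_mod_cast hN
    linarith)
  have h2 := hfin (max K (N + 1) + 1) (by have := le_max_left K (N + 1); omega) (by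
    have := le_max_right K (N + 1)
    have : ((N + 1 : ℕ) : ℤ) ≤ (max K (N + 1) : ℕ) := by exact_mod_cast this
    push_cast at this
    push_cast
    have hN' : |v| < (N : ℤ) := by exact_mod_cast hN
    linarith)
  rw [nn_succ] at h2
  have h3 : 0 < q (max K (N + 1) + 1) := by unfold q; positivity
  push_cast at h2
  have h3' : (0 : ℤ) < q (max K (N + 1) + 1) := by exact_mod_cast h3
  linarith

/-- The singular approximation property. -/
theorem sing (c : ℝ) (hc : 0 < c) (hc1 : c < 1) : ∃ n₀ : ℕ, ∀ n, n₀ ≤ n → ∃ n' m' : ℕ,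
    n' + m' + 2 ≤ n ∧ |(n' : ℝ) * α - m' - β| < c ^ n := by
  have hmn : ∀ k, (mm k : ℝ) ≤ nn k := by
    intro k
    have h1 : (nn k : ℝ) * α - mm k = ∑ j ∈ Finset.range (k + 1), δ j := by
      unfold δ nn mm
      rw [Finset.sum_sub_distrib]
      push_cast
      rw [Finset.sum_mul]
    have h2 : 0 ≤ ∑ j ∈ Finset.range (k + 1), δ j := Finset.sum_nonneg fun j _ => (δ_pos j).le
    have h3 : (nn k : ℝ) * α ≤ nn k := by
      have := alpha_le
      have h0 : (0 : ℝ) ≤ nn k := by positivity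
      nlinarith
    linarith
  have hmn' : ∀ k, mm k ≤ nn k := fun k => by exact_mod_cast hmn k
  have hNle : ∀ k, nn k + mm k + 2 ≤ 6 * q k := by
    intro k
    have := nn_le k
    have := hmn' k
    have h1 : 1 ≤ q k := by unfold q; exact Nat.one_le_pow _ _ (by norm_num)
    omega
  -- choose threshold
  obtain ⟨Q₀, hQ₀⟩ : ∃ Q₀ : ℕ, ∀ x : ℕ, Q₀ ≤ x → 8 ≤ c ^ 6 * 2 ^ x := by
    obtain ⟨Q₀, hQ₀⟩ := pow_unbounded_of_one_lt (8 / c ^ 6) (show (1 : ℝ) < 2 by norm_num)
    refine ⟨Q₀, fun x hx => ?_⟩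
    have h1 : (2 : ℝ) ^ Q₀ ≤ 2 ^ x := pow_le_pow_right₀ (by norm_num) hx
    rw [div_lt_iff₀ (by positivity)] at hQ₀
    nlinarith [pow_pos hc 6]
  have hqge : ∀ k, k ≤ q k := by
    intro k
    unfold q
    have := s_ge k
    calc k ≤ s k := by omega
      _ ≤ 2 ^ s k := Nat.lt_two_pow_self.le
  have hstrict : StrictMono (fun k => nn k + mm k + 2) := by
    apply strictMono_nat_of_lt_succ
    intro k
    have h1 : 0 < q (k + 1) := by unfold q; positivity
    have h2 : mm k ≤ mm (k + 1) := by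
      unfold mm
      rw [Finset.sum_range_succ _ (k + 1)]
      omega
    show nn k + mm k + 2 < nn (k + 1) + mm (k + 1) + 2
    rw [nn_succ]
    omega
  refine ⟨nn Q₀ + mm Q₀ + 2, ?_⟩
  intro n hn
  -- find k with N_k ≤ n < N_{k+1}
  have hex : ∃ k, n < nn (k + 1) + mm (k + 1) + 2 := ⟨n, by
    have : n + 1 ≤ nn (n + 1) + mm (n + 1) + 2 := hstrict.le_apply
    omega⟩
  classical
  obtain ⟨k, hk, hkmin⟩ : ∃ k, n < nn (k + 1) + mm (k + 1) + 2 ∧
      ∀ i, i < k → ¬ n < nn (i + 1) + mm (i + 1) + 2 :=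
    ⟨Nat.find hex, Nat.find_spec hex, fun i hi => Nat.find_min hex hi⟩
  have hkQ : Q₀ ≤ k := by
    by_contra hcon
    push Not at hcon
    have h1 : k + 1 ≤ Q₀ := hcon
    have : nn (k + 1) + mm (k + 1) + 2 ≤ nn Q₀ + mm Q₀ + 2 := hstrict.monotone h1
    omega
  have hlow : nn k + mm k + 2 ≤ n := by
    rcases Nat.eq_zero_or_pos k with h0 | h0
    · have hQ0 : Q₀ = 0 := by omega
      rw [h0]
      rw [hQ0] at hn
      exact hn
    · have := hkmin (k - 1) (by omega)
      rw [Nat.sub_add_cancel h0] at this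
      omega
  refine ⟨nn k, mm k, hlow, ?_⟩
  have h1 := beta_sub k
  have h2 : (nn k : ℝ) * α - mm k - β = -btail (k + 1) := by linarith
  rw [h2, abs_neg, abs_of_pos (btail_pos _)]
  refine lt_of_le_of_lt (btail_le _) ?_
  -- 4 * e (k+1) < c ^ n
  set x := q (k + 1) with hx
  have hxQ : Q₀ ≤ x := by
    have := hqge (k + 1)
    omega
  have hn6 : n ≤ 6 * x := by
    have := hNle (k + 1)
    omega
  have h3 : c ^ (6 * x) ≤ c ^ n := pow_le_pow_of_le_one hc.le hc1.le hn6
  refine lt_of_lt_of_le ?_ h3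
  have h4 : e (k + 1) = (x : ℝ) * (1 / 2) ^ (x ^ 2) := by
    rw [← e_eq, ← hx]
    congr 2
    rw [s_succ, hx]
    unfold q
    rw [← pow_mul, mul_comm, pow_mul]
    norm_num
  rw [h4]
  have h5 : (8 : ℝ) ^ x ≤ (c ^ 6 * 2 ^ x) ^ x :=
    pow_le_pow_left₀ (by norm_num) (hQ₀ x hxQ) x
  have h6 : (c ^ 6 * 2 ^ x) ^ x = c ^ (6 * x) * 2 ^ (x ^ 2) := by
    rw [mul_pow, ← pow_mul, ← pow_mul, sq]
  have h7 : 4 * (x : ℝ) < 8 ^ x := by
    have h8 : ∀ y : ℕ, 4 * y < 8 ^ y := by
      intro y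
      induction y with
      | zero => norm_num
      | succ n ih => rw [pow_succ]; omega
    exact_mod_cast h8 x
  have h8 : (1 / 2 : ℝ) ^ (x ^ 2) * 2 ^ (x ^ 2) = 1 := by
    rw [← mul_pow]; norm_num
  have h9 : (0 : ℝ) < (1 / 2) ^ (x ^ 2) := by positivity
  calc 4 * ((x : ℝ) * (1 / 2) ^ (x ^ 2)) = (4 * x) * (1 / 2) ^ (x ^ 2) := by ring
    _ < 8 ^ x * (1 / 2) ^ (x ^ 2) := by
        apply mul_lt_mul_of_pos_right h7 h9
    _ ≤ (c ^ (6 * x) * 2 ^ (x ^ 2)) * (1 / 2) ^ (x ^ 2) := by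
        rw [← h6]
        apply mul_le_mul_of_nonneg_right h5 h9.le
    _ = c ^ (6 * x) * ((1 / 2 : ℝ) ^ (x ^ 2) * 2 ^ (x ^ 2)) := by ring
    _ = c ^ (6 * x) := by rw [h8, mul_one]

end Pool.Agent.MP_6f21ce_an
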