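import Pool.Agent.MP_6f21ce_an.Linearize
import Pool.Agent.MP_6f21ce_an.Sing

set_option autoImplicit false

namespace Pool.Agent.MP_6f21ce_an

open Set Filter Topology

lemma gg_ones {P : Par} (hP : Good P) (n : ℕ) {z : ℝ} (hz : z ∈ Icc (0 : ℝ) 1) :
    gg P.κ (wordMap (fm P) (List.replicate n 1) z) = P.b ^ n * gg P.κ z := by
  induction n with
  | zero => simp [word_nil]
  | succ n ih =>
    rw [List.replicate_succ, word_cons]
    have hw := gg_mem hP.κ0 (word_mem hP (List.replicate n 1) hz)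
    show gg P.κ (gg P.κ (P.b * gg P.κ (wordMap (fm P) (List.replicate n 1) z))) = _
    rw [gg_gg hP.κ0 (mul_mem_Icc hP.b0 hP.b1 hw), ih, pow_succ]
    ring

lemma zeros_word {P : Par} (n : ℕ) (z : ℝ) :
    wordMap (fm P) (List.replicate n 0) z = P.a ^ n * z := by
  induction n with
  | zero => simp [word_nil]
  | succ n ih =>
    rw [List.replicate_succ, word_cons, ih]
    show P.a * (P.a ^ n * z) = _
    rw [pow_succ]
    ring

/-- first word -/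
def w1 (n : ℕ) : List (Fin 4) := 2 :: List.replicate n 1
/-- second word -/
def w2 (m : ℕ) : List (Fin 4) := List.replicate m 0 ++ [3]

lemma w1_map {P : Par} (hP : Good P) (n : ℕ) {z : ℝ} (hz : z ∈ Icc (0 : ℝ) 1) :
    wordMap (fm P) (w1 n) z = P.c * P.b ^ n * gg P.κ z := by
  unfold w1
  rw [word_cons]
  show P.c * gg P.κ (wordMap (fm P) (List.replicate n 1) z) = _
  rw [gg_ones hP n hz]
  ring

lemma w2_map {P : Par} (m : ℕ) (z : ℝ) :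
    wordMap (fm P) (w2 m) z = P.a ^ m * P.d * gg P.κ z := by
  unfold w2
  rw [word_append, zeros_word]
  show P.a ^ m * (P.d * gg P.κ z) = _
  ring

lemma exp_lip {x y : ℝ} (hx : 0 ≤ x) (hy : 0 ≤ y) :
    |Real.exp (-x) - Real.exp (-y)| ≤ |x - y| := by
  have key : ∀ x y : ℝ, 0 ≤ x → x ≤ y → |Real.exp (-x) - Real.exp (-y)| ≤ |x - y| := by
    intro x y hx hxy
    have h1 : Real.exp (-y) ≤ Real.exp (-x) := Real.exp_le_exp.2 (by linarith)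
    rw [abs_of_nonneg (by linarith), abs_of_nonpos (by linarith)]
    have h2 : Real.exp (-y) = Real.exp (-x) * Real.exp (-(y - x)) := by
      rw [← Real.exp_add]; congr 1; ring
    have h3 := Real.add_one_le_exp (-(y - x))
    have h4 : Real.exp (-x) ≤ 1 := Real.exp_le_one_iff.2 (by linarith)
    have h5 := Real.exp_pos (-x)
    rw [h2]
    nlinarith
  rcases le_total x y with h | h
  · exact key x y hx h
  · rw [abs_sub_comm, abs_sub_comm x y]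
    exact key y x hy h

lemma dist_words {P : Par} (hP : Good P) (n m : ℕ) (tl : List (Fin 4)) :
    supDist (wordMap (fm P) (w1 n ++ w2 m ++ tl)) (wordMap (fm P) (w2 m ++ w1 n ++ tl)) ≤
      3 * |P.c * P.b ^ n - P.a ^ m * P.d| := by
  unfold supDist
  apply csSup_le
  · exact ⟨_, ⟨0, ⟨le_rfl, zero_le_one⟩, rfl⟩⟩
  · rintro _ ⟨x, hx, rfl⟩
    show |wordMap (fm P) (w1 n ++ w2 m ++ tl) x - wordMap (fm P) (w2 m ++ w1 n ++ tl) x| ≤ _
    rw [word_append, word_append, word_append, word_append]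
    set z := wordMap (fm P) tl x with hz
    have hzm : z ∈ Icc (0 : ℝ) 1 := word_mem hP tl hx
    rw [w1_map hP n (word_mem hP (w2 m) hzm), w2_map m (wordMap (fm P) (w1 n) z),
      w1_map hP n hzm, w2_map m z]
    set μ := P.c * P.b ^ n with hμ
    set ν := P.a ^ m * P.d with hν
    set G := gg P.κ z with hG
    have hGm : G ∈ Icc (0 : ℝ) 1 := gg_mem hP.κ0 hzm
    have hμ0 : 0 ≤ μ := mul_nonneg hP.c0.le (pow_nonneg hP.b0.le n)
    have hν0 : 0 ≤ ν := mul_nonneg (pow_nonneg hP.a0.le m) hP.d0.le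
    have hμ1 : μ ≤ 1 := by
      have h1 : P.b ^ n ≤ 1 := pow_le_one₀ hP.b0.le (by linarith [hP.b1])
      have h2 := hP.c1
      have h3 := hP.c0
      have h4 : 0 ≤ P.b ^ n := pow_nonneg hP.b0.le n
      nlinarith
    have hν1 : ν ≤ 1 := by
      have h1 : P.a ^ m ≤ 1 := pow_le_one₀ hP.a0.le (by linarith [hP.a1])
      have h2 := hP.d1
      have h3 := hP.d0
      have h4 : 0 ≤ P.a ^ m := pow_nonneg hP.a0.le m
      nlinarith
    have m1 : ν * G ∈ Icc (0 : ℝ) 1 := ⟨mul_nonneg hν0 hGm.1, by nlinarith [hGm.1, hGm.2]⟩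
    have m2 : μ * G ∈ Icc (0 : ℝ) 1 := ⟨mul_nonneg hμ0 hGm.1, by nlinarith [hGm.1, hGm.2]⟩
    have g1 := gg_mem hP.κ0 m1
    have h1 := gg_lip hP.κ0 hP.κ1 m1 m2
    have h2 : μ * gg P.κ (ν * G) - ν * gg P.κ (μ * G) =
        (μ - ν) * gg P.κ (ν * G) + ν * (gg P.κ (ν * G) - gg P.κ (μ * G)) := by ring
    rw [h2]
    have h3 : |(μ - ν) * gg P.κ (ν * G)| ≤ |μ - ν| := by
      rw [abs_mul, abs_of_nonneg g1.1]
      nlinarith [abs_nonneg (μ - ν), g1.1, g1.2]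
    have h4 : |ν * (gg P.κ (ν * G) - gg P.κ (μ * G))| ≤ 3 / 2 * |μ - ν| := by
      rw [abs_mul, abs_of_nonneg hν0]
      have h5 : |ν * G - μ * G| = |μ - ν| * G := by
        rw [← sub_mul, abs_mul, abs_of_nonneg hGm.1, abs_sub_comm]
      rw [h5] at h1
      have h6 := abs_nonneg (gg P.κ (ν * G) - gg P.κ (μ * G))
      have h7 : |μ - ν| * G ≤ |μ - ν| := by nlinarith [abs_nonneg (μ - ν), hGm.1, hGm.2]
      nlinarith
    calc _ ≤ |(μ - ν) * gg P.κ (ν * G)| + |ν * (gg P.κ (ν * G) - gg P.κ (μ * G))| := abs_add_le _ _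
      _ ≤ 3 * |μ - ν| := by
        have := abs_nonneg (μ - ν)
        linarith

lemma words_ne (n m : ℕ) (tl : List (Fin 4)) : w1 n ++ w2 m ++ tl ≠ w2 m ++ w1 n ++ tl := by
  intro h
  rcases m with _ | m
  · simp [w1, w2] at h
  · simp [w1, w2, List.replicate_succ] at h

/-- Super-exponential condensation. -/
theorem not_ESC {κ γ L : ℝ} (hL : 0 < L) (hγ : 0 < γ) (hβ : 0 < γ + β)
    (hP : Good (par κ 1 α γ (γ + β) L)) : ¬ ESC (fm (par κ 1 α γ (γ + β) L)) := by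
  rintro ⟨c, hc, hfreq⟩
  -- reduce to `c < 1`
  set c₁ := min c (1 / 2) with hc₁
  have hc₁0 : 0 < c₁ := lt_min hc (by norm_num)
  have hc₁1 : c₁ < 1 := lt_of_le_of_lt (min_le_right _ _) (by norm_num)
  obtain ⟨n₀, hn₀⟩ := sing (c₁ / 2) (by linarith) (by linarith)
  obtain ⟨n₁, hn₁⟩ := exists_pow_lt_of_lt_one (show (0 : ℝ) < 1 / (3 * L + 1) by positivity)
    (show (1 / 2 : ℝ) < 1 by norm_num)
  obtain ⟨n, hn, hall⟩ := (hfreq.and_eventually (eventually_ge_atTop (max n₀ n₁))).exists.imp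
    fun n h => And.intro h.2 h.1
  obtain ⟨n', m', hle, happ⟩ := hn₀ n ((le_max_left _ _).trans hn)
  set tl : List (Fin 4) := List.replicate (n - (n' + m' + 2)) 0 with htl
  have h1 := hall (w1 n' ++ w2 m' ++ tl) (w2 m' ++ w1 n' ++ tl)
    (by simp [w1, w2, htl]; omega) (by simp [w1, w2, htl]; omega) (words_ne n' m' tl)
  have h2 := dist_words hP n' m' tl
  have hα := alpha_pos
  have h3 : |(par κ 1 α γ (γ + β) L).c * (par κ 1 α γ (γ + β) L).b ^ n' -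
      (par κ 1 α γ (γ + β) L).a ^ m' * (par κ 1 α γ (γ + β) L).d| ≤ L * (c₁ / 2) ^ n := by
    show |Real.exp (-(γ * L)) * Real.exp (-(α * L)) ^ n' -
      Real.exp (-(1 * L)) ^ m' * Real.exp (-((γ + β) * L))| ≤ _
    rw [exp_pow', exp_pow', ← Real.exp_add, ← Real.exp_add]
    have e1 : -(γ * L) + -(n' * α * L) = -((γ + n' * α) * L) := by ring
    have e2 : -(m' * 1 * L) + -((γ + β) * L) = -((m' + (γ + β)) * L) := by ring
    rw [e1, e2]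
    refine (exp_lip (by positivity) (by positivity)).trans ?_
    have e3 : (γ + n' * α) * L - (m' + (γ + β)) * L = L * ((n' : ℝ) * α - m' - β) := by ring
    rw [e3, abs_mul, abs_of_pos hL]
    exact mul_le_mul_of_nonneg_left happ.le hL.le
  have h4 : 3 * (L * (c₁ / 2) ^ n) < c ^ n := by
    have h5 : (1 / 2 : ℝ) ^ n ≤ (1 / 2) ^ n₁ :=
      pow_le_pow_of_le_one (by norm_num) (by norm_num) ((le_max_right _ _).trans hn)
    have h6 : (1 / 2 : ℝ) ^ n < 1 / (3 * L + 1) := lt_of_le_of_lt h5 hn₁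
    rw [lt_div_iff₀ (by positivity)] at h6
    have h7 : (c₁ / 2) ^ n = c₁ ^ n * (1 / 2) ^ n := by
      rw [← mul_pow]; congr 1; ring
    have h8 : c₁ ^ n ≤ c ^ n := pow_le_pow_left₀ hc₁0.le (min_le_left _ _) n
    have h9 : 0 < c₁ ^ n := pow_pos hc₁0 n
    have h10 : (0 : ℝ) < (1 / 2) ^ n := by positivity
    rw [h7]
    have h11 : 3 * L * (1 / 2) ^ n < 1 := by linarith
    calc 3 * (L * (c₁ ^ n * (1 / 2) ^ n)) = c₁ ^ n * (3 * L * (1 / 2) ^ n) := by ring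
      _ < c₁ ^ n * 1 := mul_lt_mul_of_pos_left h11 h9
      _ ≤ c ^ n := by linarith
  linarith

/-- Complex version of the involution. -/
noncomputable def gc (κ : ℝ) (z : ℂ) : ℂ := (1 - z) / (1 + (κ : ℂ) * z)

noncomputable def fc (P : Par) : Fin 4 → ℂ → ℂ
  | 0 => fun z => P.a * z
  | 1 => fun z => gc P.κ (P.b * gc P.κ z)
  | 2 => fun z => P.c * gc P.κ z
  | 3 => fun z => P.d * gc P.κ z

lemma gc_ofReal (κ x : ℝ) : gc κ (x : ℂ) = ((gg κ x : ℝ) : ℂ) := by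
  unfold gc gg
  push_cast
  rfl

lemma fc_ofReal (P : Par) (i : Fin 4) (x : ℝ) : fc P i (x : ℂ) = ((fm P i x : ℝ) : ℂ) := by
  fin_cases i
  · show (P.a : ℂ) * x = ((P.a * x : ℝ) : ℂ)
    push_cast
    rfl
  · show gc P.κ (P.b * gc P.κ x) = ((gg P.κ (P.b * gg P.κ x) : ℝ) : ℂ)
    rw [gc_ofReal, ← Complex.ofReal_mul, gc_ofReal]
  · show (P.c : ℂ) * gc P.κ x = ((P.c * gg P.κ x : ℝ) : ℂ)
    rw [gc_ofReal]
    push_cast
    rfl
  · show (P.d : ℂ) * gc P.κ x = ((P.d * gg P.κ x : ℝ) : ℂ)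
    rw [gc_ofReal]
    push_cast
    rfl

lemma mem_B {δ : ℝ} {z : ℂ} : z ∈ B δ ↔ ∃ x ∈ Icc (0 : ℝ) 1, ‖z - x‖ < δ := by
  unfold B
  rw [Metric.mem_thickening_iff]
  constructor
  · rintro ⟨_, ⟨x, hx, rfl⟩, h⟩
    exact ⟨x, hx, by rwa [dist_eq_norm] at h⟩
  · rintro ⟨x, hx, h⟩
    exact ⟨_, ⟨x, hx, rfl⟩, by rwa [dist_eq_norm]⟩

lemma closure_B {ε : ℝ} (hε : 0 ≤ ε) {z : ℂ} (hz : z ∈ closure (B ε)) :
    ∃ x ∈ Icc (0 : ℝ) 1, ‖z - x‖ ≤ ε := by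
  have hc : IsCompact ((fun x : ℝ => (x : ℂ)) '' Icc 0 1) :=
    isCompact_Icc.image Complex.continuous_ofReal
  have h1 : z ∈ Metric.cthickening ε ((fun x : ℝ => (x : ℂ)) '' Icc 0 1) :=
    Metric.closure_thickening_subset_cthickening _ _ hz
  rw [hc.cthickening_eq_biUnion_closedBall hε] at h1
  simp only [mem_iUnion, Metric.mem_closedBall, dist_eq_norm] at h1
  obtain ⟨_, ⟨x, hx, rfl⟩, h2⟩ := h1
  exact ⟨x, hx, h2⟩

section IFS

variable {κ R ε : ℝ}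

/-- Bounds for the complex involution on the disc of radius `R`, when `2 κ R = 1`. -/
lemma gc_den (hκ : 0 < κ) (hR : 2 * κ * R = 1) {z : ℂ} (hz : ‖z‖ ≤ R) :
    1 / 2 ≤ ‖1 + (κ : ℂ) * z‖ := by
  have h1 : ‖(κ : ℂ) * z‖ ≤ 1 / 2 := by
    rw [norm_mul, Complex.norm_real, Real.norm_of_nonneg hκ.le]
    nlinarith
  have h2 : ‖(1 : ℂ)‖ ≤ ‖1 + (κ : ℂ) * z‖ + ‖(κ : ℂ) * z‖ := by
    have := norm_sub_le (1 + (κ : ℂ) * z) ((κ : ℂ) * z)
    simpa using this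
  rw [norm_one] at h2
  linarith

lemma gc_den_ne (hκ : 0 < κ) (hR : 2 * κ * R = 1) {z : ℂ} (hz : ‖z‖ ≤ R) :
    1 + (κ : ℂ) * z ≠ 0 := by
  have := gc_den hκ hR hz
  intro h
  rw [h, norm_zero] at this
  linarith

lemma gc_norm (hκ : 0 < κ) (hR : 2 * κ * R = 1) {z : ℂ} (hz : ‖z‖ ≤ R) (hz1 : ‖1 - z‖ ≤ R) :
    ‖gc κ z‖ ≤ 2 * R := by
  have h1 := gc_den hκ hR hz
  unfold gc
  rw [norm_div, div_le_iff₀ (by linarith)]
  have hR0 : 0 ≤ R := (norm_nonneg z).trans hz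
  nlinarith

lemma gc_near_one (hκ : 0 < κ) (hκ1 : κ ≤ 1 / 2) (hR : 2 * κ * R = 1) {w : ℂ} (hw : ‖w‖ ≤ R) :
    ‖gc κ w - 1‖ ≤ 3 * ‖w‖ := by
  have h1 := gc_den hκ hR hw
  have h2 := gc_den_ne hκ hR hw
  have h3 : gc κ w - 1 = -((1 + (κ : ℂ)) * w) / (1 + (κ : ℂ) * w) := by
    unfold gc
    rw [div_sub_one h2]
    congr 1
    ring
  rw [h3, norm_div, norm_neg, norm_mul, div_le_iff₀ (by linarith)]
  have h4 : ‖1 + (κ : ℂ)‖ ≤ 3 / 2 := by
    refine (norm_add_le _ _).trans ?_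
    rw [norm_one, Complex.norm_real, Real.norm_of_nonneg hκ.le]
    linarith
  have h5 := norm_nonneg w
  nlinarith

lemma gc_hasDeriv {z : ℂ} (hz : 1 + (κ : ℂ) * z ≠ 0) :
    HasDerivAt (gc κ) (-(1 + (κ : ℂ)) / (1 + (κ : ℂ) * z) ^ 2) z := by
  have h1 : HasDerivAt (fun z : ℂ => 1 - z) (-1) z := by
    simpa using (hasDerivAt_id z).const_sub 1
  have h2 : HasDerivAt (fun z : ℂ => 1 + (κ : ℂ) * z) (κ : ℂ) z := by
    simpa using ((hasDerivAt_id z).const_mul (κ : ℂ)).const_add 1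
  have h3 := h1.div h2 hz
  have h4 : -(1 + (κ : ℂ)) / (1 + (κ : ℂ) * z) ^ 2 =
      (-1 * (1 + (κ : ℂ) * z) - (1 - z) * (κ : ℂ)) / (1 + (κ : ℂ) * z) ^ 2 := by
    congr 1
    ring
  rw [h4]
  exact h3

lemma gc_deriv_norm (hκ : 0 < κ) (hκ1 : κ ≤ 1 / 2) (hR : 2 * κ * R = 1) {z : ℂ}
    (hz : ‖z‖ ≤ R) : ‖-(1 + (κ : ℂ)) / (1 + (κ : ℂ) * z) ^ 2‖ ≤ 6 ∧
      0 < ‖-(1 + (κ : ℂ)) / (1 + (κ : ℂ) * z) ^ 2‖ := by
  have h1 := gc_den hκ hR hz
  have h2 := gc_den_ne hκ hR hz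
  have h4 : ‖1 + (κ : ℂ)‖ ≤ 3 / 2 := by
    refine (norm_add_le _ _).trans ?_
    rw [norm_one, Complex.norm_real, Real.norm_of_nonneg hκ.le]
    linarith
  constructor
  · rw [norm_div, norm_neg, norm_pow, div_le_iff₀ (by positivity)]
    nlinarith
  · rw [norm_pos_iff]
    apply div_ne_zero
    · rw [neg_ne_zero]
      have : (1 + (κ : ℂ)) = ((1 + κ : ℝ) : ℂ) := by push_cast; rfl
      rw [this]
      exact_mod_cast (show (1 + κ) ≠ 0 by positivity)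
    · exact pow_ne_zero 2 h2

/-- Points of `B δ` have modulus less than `1 + δ`, and so does `1 - z`. -/
lemma norm_of_near {δ : ℝ} {z : ℂ} {x : ℝ} (hx : x ∈ Icc (0 : ℝ) 1) (h : ‖z - x‖ ≤ δ) :
    ‖z‖ ≤ 1 + δ ∧ ‖1 - z‖ ≤ 1 + δ := by
  constructor
  · have h1 : z = (z - x) + x := by ring
    rw [h1]
    refine (norm_add_le _ _).trans ?_
    rw [Complex.norm_real, Real.norm_of_nonneg hx.1]
    linarith [hx.2]
  · have h1 : 1 - z = ((1 - x : ℝ) : ℂ) - (z - x) := by push_cast; ring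
    rw [h1]
    refine (norm_sub_le _ _).trans ?_
    rw [Complex.norm_real, Real.norm_of_nonneg (by linarith [hx.2])]
    linarith [hx.1]

theorem isIFS (hε : 0 < ε) (hκ : κ = 1 / (2 * (1 + 2 * ε))) {P : Par} (hP : Good P)
    (hPκ : P.κ = κ) (hb : P.b < 1 / 36) (hb' : 6 * (1 + 2 * ε) * P.b < ε)
    (hc : P.c < 1 / 6) (hc' : 2 * (1 + 2 * ε) * P.c < ε)
    (hd : P.d < 1 / 6) (hd' : 2 * (1 + 2 * ε) * P.d < ε) :
    IsAnalyticIFS ε (fm P) := by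
  set R : ℝ := 1 + 2 * ε with hRdef
  have hR0 : 0 < R := by positivity
  have hκ0 : 0 < κ := by rw [hκ]; positivity
  have hR : 2 * κ * R = 1 := by
    rw [hκ]
    field_simp
  have hκ1 : κ ≤ 1 / 2 := by rw [← hPκ]; exact hP.κ1
  have hnear : ∀ z ∈ B (2 * ε), ‖z‖ ≤ R ∧ ‖1 - z‖ ≤ R := by
    intro z hz
    obtain ⟨x, hx, h⟩ := mem_B.1 hz
    exact norm_of_near hx h.le
  have hnear' : ∀ z ∈ closure (B ε), ‖z‖ ≤ R ∧ ‖1 - z‖ ≤ R := by
    intro z hz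
    obtain ⟨x, hx, h⟩ := closure_B hε.le hz
    have := norm_of_near hx h
    exact ⟨this.1.trans (by linarith), this.2.trans (by linarith)⟩
  -- inner point of the letter `1`
  have hinner : ∀ z : ℂ, ‖z‖ ≤ R → ‖1 - z‖ ≤ R → ‖(P.b : ℂ) * gc κ z‖ ≤ 2 * R * P.b ∧
      ‖(P.b : ℂ) * gc κ z‖ ≤ R := by
    intro z h1 h2
    have h3 := gc_norm hκ0 hR h1 h2
    have h4 : ‖(P.b : ℂ) * gc κ z‖ ≤ 2 * R * P.b := by
      rw [norm_mul, Complex.norm_real, Real.norm_of_nonneg hP.b0.le]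
      nlinarith [hP.b0]
    refine ⟨h4, h4.trans ?_⟩
    nlinarith [hP.b0, hP.b1]
  have hd1 : ∀ z : ℂ, ‖z‖ ≤ R → ‖1 - z‖ ≤ R →
      HasDerivAt (fun z : ℂ => gc κ ((P.b : ℂ) * gc κ z))
        (-(1 + (κ : ℂ)) / (1 + (κ : ℂ) * ((P.b : ℂ) * gc κ z)) ^ 2 *
          ((P.b : ℂ) * (-(1 + (κ : ℂ)) / (1 + (κ : ℂ) * z) ^ 2))) z := by
    intro z h1 h2
    have h3 := gc_hasDeriv (κ := κ) (gc_den_ne hκ0 hR h1)
    have h4 := gc_hasDeriv (κ := κ) (gc_den_ne hκ0 hR (hinner z h1 h2).2)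
    exact h4.comp z (h3.const_mul (P.b : ℂ))
  have hd2 : ∀ (r : ℝ) (z : ℂ), ‖z‖ ≤ R →
      HasDerivAt (fun z : ℂ => (r : ℂ) * gc κ z)
        ((r : ℂ) * (-(1 + (κ : ℂ)) / (1 + (κ : ℂ) * z) ^ 2)) z := by
    intro r z h1
    exact (gc_hasDeriv (κ := κ) (gc_den_ne hκ0 hR h1)).const_mul (r : ℂ)
  have hd0 : ∀ (r : ℝ) (z : ℂ), HasDerivAt (fun z : ℂ => (r : ℂ) * z) (r : ℂ) z := by
    intro r z
    simpa using (hasDerivAt_id z).const_mul (r : ℂ)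
  -- small multiples of the involution
  have hsmall : ∀ r : ℝ, 0 < r → 2 * R * r < ε → ∀ z : ℂ, ‖z‖ ≤ R → ‖1 - z‖ ≤ R →
      (r : ℂ) * gc κ z ∈ B ε := by
    intro r hr hr' z h1 h2
    rw [mem_B]
    refine ⟨0, ⟨le_rfl, zero_le_one⟩, ?_⟩
    have h3 := gc_norm hκ0 hR h1 h2
    rw [Complex.ofReal_zero, sub_zero, norm_mul, Complex.norm_real, Real.norm_of_nonneg hr.le]
    nlinarith
  have hdsmall : ∀ r : ℝ, 0 < r → r < 1 / 6 → ∀ z : ℂ, ‖z‖ ≤ R →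
      0 < ‖deriv (fun z : ℂ => (r : ℂ) * gc κ z) z‖ ∧
      ‖deriv (fun z : ℂ => (r : ℂ) * gc κ z) z‖ < 1 := by
    intro r hr hr' z h1
    rw [(hd2 r z h1).deriv, norm_mul, Complex.norm_real, Real.norm_of_nonneg hr.le]
    obtain ⟨h2, h3⟩ := gc_deriv_norm hκ0 hκ1 hR h1
    exact ⟨mul_pos hr h3, by nlinarith⟩
  refine ⟨by norm_num, fc P, ?_⟩
  intro i
  refine ⟨?_, fun x _ => fc_ofReal P i x, fun x hx => fm_mem hP i hx, ?_, ?_⟩
  · intro z hz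
    obtain ⟨h1, h2⟩ := hnear z hz
    apply DifferentiableAt.differentiableWithinAt
    fin_cases i
    · exact (hd0 P.a z).differentiableAt
    · show DifferentiableAt ℂ (fun z : ℂ => gc P.κ ((P.b : ℂ) * gc P.κ z)) z
      rw [hPκ]
      exact (hd1 z h1 h2).differentiableAt
    · show DifferentiableAt ℂ (fun z : ℂ => (P.c : ℂ) * gc P.κ z) z
      rw [hPκ]
      exact (hd2 P.c z h1).differentiableAt
    · show DifferentiableAt ℂ (fun z : ℂ => (P.d : ℂ) * gc P.κ z) z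
      rw [hPκ]
      exact (hd2 P.d z h1).differentiableAt
  · intro z hz
    obtain ⟨h1, h2⟩ := hnear' z hz
    fin_cases i
    · show (P.a : ℂ) * z ∈ B ε
      obtain ⟨x, hx, h⟩ := closure_B hε.le hz
      rw [mem_B]
      refine ⟨P.a * x, mul_mem_Icc hP.a0 hP.a1 hx, ?_⟩
      have : (P.a : ℂ) * z - ((P.a * x : ℝ) : ℂ) = (P.a : ℂ) * (z - x) := by push_cast; ring
      rw [this, norm_mul, Complex.norm_real, Real.norm_of_nonneg hP.a0.le]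
      nlinarith [hP.a0, hP.a1, norm_nonneg (z - x)]
    · show gc P.κ ((P.b : ℂ) * gc P.κ z) ∈ B ε
      rw [hPκ, mem_B]
      refine ⟨1, ⟨zero_le_one, le_rfl⟩, ?_⟩
      rw [Complex.ofReal_one]
      have h3 := gc_near_one hκ0 hκ1 hR (hinner z h1 h2).2
      have h4 := (hinner z h1 h2).1
      nlinarith
    · show (P.c : ℂ) * gc P.κ z ∈ B ε
      rw [hPκ]
      exact hsmall P.c hP.c0 hc' z h1 h2
    · show (P.d : ℂ) * gc P.κ z ∈ B ε
      rw [hPκ]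
      exact hsmall P.d hP.d0 hd' z h1 h2
  · intro z hz
    obtain ⟨h1, h2⟩ := hnear' z hz
    fin_cases i
    · show 0 < ‖deriv (fun z : ℂ => (P.a : ℂ) * z) z‖ ∧ ‖deriv (fun z : ℂ => (P.a : ℂ) * z) z‖ < 1
      rw [(hd0 P.a z).deriv, Complex.norm_real, Real.norm_of_nonneg hP.a0.le]
      exact ⟨hP.a0, by linarith [hP.a1]⟩
    · show 0 < ‖deriv (fun z : ℂ => gc P.κ ((P.b : ℂ) * gc P.κ z)) z‖ ∧
        ‖deriv (fun z : ℂ => gc P.κ ((P.b : ℂ) * gc P.κ z)) z‖ < 1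
      rw [hPκ, (hd1 z h1 h2).deriv, norm_mul, norm_mul, Complex.norm_real,
        Real.norm_of_nonneg hP.b0.le]
      obtain ⟨h3, h4⟩ := gc_deriv_norm hκ0 hκ1 hR h1
      obtain ⟨h5, h6⟩ := gc_deriv_norm hκ0 hκ1 hR (hinner z h1 h2).2
      refine ⟨mul_pos h6 (mul_pos hP.b0 h4), ?_⟩
      have hb0 := hP.b0
      set X := ‖-(1 + (κ : ℂ)) / (1 + (κ : ℂ) * z) ^ 2‖
      set Y := ‖-(1 + (κ : ℂ)) / (1 + (κ : ℂ) * ((P.b : ℂ) * gc κ z)) ^ 2‖
      have h7 : P.b * X ≤ P.b * 6 := mul_le_mul_of_nonneg_left h3 hb0.le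
      have h8 : Y * (P.b * X) ≤ 6 * (P.b * 6) :=
        mul_le_mul h5 h7 (mul_nonneg hb0.le h4.le) (by norm_num)
      linarith
    · show 0 < ‖deriv (fun z : ℂ => (P.c : ℂ) * gc P.κ z) z‖ ∧
        ‖deriv (fun z : ℂ => (P.c : ℂ) * gc P.κ z) z‖ < 1
      rw [hPκ]
      exact hdsmall P.c hP.c0 hc z h1
    · show 0 < ‖deriv (fun z : ℂ => (P.d : ℂ) * gc P.κ z) z‖ ∧
        ‖deriv (fun z : ℂ => (P.d : ℂ) * gc P.κ z) z‖ < 1
      rw [hPκ]
      exact hdsmall P.d hP.d0 hd z h1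

end IFS

end Pool.Agent.MP_6f21ce_an
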