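import Pool.Agent.MP_6f21ce_an.Defs

set_option autoImplicit false

namespace Pool.Agent.MP_6f21ce_an

open Set Filter

/-- The involution `z ↦ (1 - z) / (1 + κ z)`. -/
noncomputable def gg (κ z : ℝ) : ℝ := (1 - z) / (1 + κ * z)

/-- Parameters of the system. -/
structure Par where
  κ : ℝ
  a : ℝ
  b : ℝ
  c : ℝ
  d : ℝ

/-- The four maps. -/
noncomputable def fm (P : Par) : Fin 4 → ℝ → ℝ
  | 0 => fun z => P.a * z
  | 1 => fun z => gg P.κ (P.b * gg P.κ z)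
  | 2 => fun z => P.c * gg P.κ z
  | 3 => fun z => P.d * gg P.κ z

structure Good (P : Par) : Prop where
  κ0 : 0 < P.κ
  κ1 : P.κ ≤ 1 / 2
  a0 : 0 < P.a
  a1 : P.a ≤ 1 / 4
  b0 : 0 < P.b
  b1 : P.b ≤ 1 / 4
  c0 : 0 < P.c
  c1 : P.c ≤ 1 / 4
  d0 : 0 < P.d
  d1 : P.d ≤ 1 / 4

section g

variable {κ : ℝ}

lemma den_pos (h : 0 < κ) {z : ℝ} (hz : z ∈ Icc (0 : ℝ) 1) : 0 < 1 + κ * z := by
  have := mul_nonneg h.le hz.1
  linarith

lemma gg_mem (h : 0 < κ) {z : ℝ} (hz : z ∈ Icc (0 : ℝ) 1) : gg κ z ∈ Icc (0 : ℝ) 1 := by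
  have hd := den_pos h hz
  unfold gg
  refine ⟨div_nonneg (by linarith [hz.2]) hd.le, ?_⟩
  rw [div_le_one hd]
  have := mul_nonneg h.le hz.1
  linarith [hz.1]

lemma gg_gg (h : 0 < κ) {z : ℝ} (hz : z ∈ Icc (0 : ℝ) 1) : gg κ (gg κ z) = z := by
  have hd := den_pos h hz
  have hd' := hd.ne'
  unfold gg
  have h2 : 1 + κ * ((1 - z) / (1 + κ * z)) = (1 + κ) / (1 + κ * z) := by
    field_simp
    ring
  have h3 : 1 - (1 - z) / (1 + κ * z) = (1 + κ) * z / (1 + κ * z) := by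
    rw [eq_div_iff hd', sub_mul, div_mul_cancel₀ _ hd']
    ring
  rw [h2, h3]
  have : (1 + κ) ≠ 0 := by positivity
  field_simp

lemma gg_inj (h : 0 < κ) {x y : ℝ} (hx : x ∈ Icc (0 : ℝ) 1) (hy : y ∈ Icc (0 : ℝ) 1)
    (hxy : gg κ x = gg κ y) : x = y := by
  rw [← gg_gg h hx, ← gg_gg h hy, hxy]

lemma gg_ge (h : 0 < κ) (h1 : κ ≤ 1 / 2) {z : ℝ} (hz : z ∈ Icc (0 : ℝ) 1) :
    1 - 2 * z ≤ gg κ z := by
  have hd := den_pos h hz
  unfold gg
  rw [le_div_iff₀ hd]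
  nlinarith [mul_nonneg h.le (mul_nonneg hz.1 hz.1), hz.1, hz.2, mul_nonneg h.le hz.1]

lemma gg_lip (h : 0 < κ) (h1 : κ ≤ 1 / 2) {x y : ℝ} (hx : x ∈ Icc (0 : ℝ) 1)
    (hy : y ∈ Icc (0 : ℝ) 1) : |gg κ x - gg κ y| ≤ 3 / 2 * |x - y| := by
  have hdx := den_pos h hx
  have hdy := den_pos h hy
  have hdx' := hdx.ne'
  have hdy' := hdy.ne'
  have h2 : gg κ x - gg κ y = -((1 + κ) * (x - y)) / ((1 + κ * x) * (1 + κ * y)) := by
    unfold gg
    rw [div_sub_div _ _ hdx' hdy']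
    congr 1
    ring
  rw [h2, abs_div, abs_neg, abs_mul, abs_of_pos (show 0 < 1 + κ by linarith),
    abs_of_pos (mul_pos hdx hdy), div_le_iff₀ (mul_pos hdx hdy)]
  have h3 : 1 ≤ (1 + κ * x) * (1 + κ * y) := by
    have h4 := mul_nonneg h.le hx.1
    have h5 := mul_nonneg h.le hy.1
    nlinarith
  have h6 := abs_nonneg (x - y)
  nlinarith

end g

variable {P : Par}

lemma mul_mem_Icc {x r : ℝ} (h0 : 0 < r) (h1 : r ≤ 1 / 4) (hx : x ∈ Icc (0 : ℝ) 1) :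
    r * x ∈ Icc (0 : ℝ) 1 := by
  refine ⟨mul_nonneg h0.le hx.1, ?_⟩
  nlinarith [hx.1, hx.2]

lemma fm_mem (hP : Good P) (i : Fin 4) {x : ℝ} (hx : x ∈ Icc (0 : ℝ) 1) :
    fm P i x ∈ Icc (0 : ℝ) 1 := by
  have hg := gg_mem hP.κ0 hx
  fin_cases i
  · exact mul_mem_Icc hP.a0 hP.a1 hx
  · exact gg_mem hP.κ0 (mul_mem_Icc hP.b0 hP.b1 hg)
  · exact mul_mem_Icc hP.c0 hP.c1 hg
  · exact mul_mem_Icc hP.d0 hP.d1 hg

lemma fm_lip (hP : Good P) (i : Fin 4) {x y : ℝ} (hx : x ∈ Icc (0 : ℝ) 1)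
    (hy : y ∈ Icc (0 : ℝ) 1) : |fm P i x - fm P i y| ≤ 3 / 4 * |x - y| := by
  have hgx := gg_mem hP.κ0 hx
  have hgy := gg_mem hP.κ0 hy
  have hl := gg_lip hP.κ0 hP.κ1 hx hy
  have hn := abs_nonneg (x - y)
  have hn2 := abs_nonneg (gg P.κ x - gg P.κ y)
  fin_cases i
  · show |P.a * x - P.a * y| ≤ _
    rw [← mul_sub, abs_mul, abs_of_pos hP.a0]
    nlinarith [hP.a0, hP.a1]
  · show |gg P.κ (P.b * gg P.κ x) - gg P.κ (P.b * gg P.κ y)| ≤ _
    have h1 := gg_lip hP.κ0 hP.κ1 (mul_mem_Icc hP.b0 hP.b1 hgx) (mul_mem_Icc hP.b0 hP.b1 hgy)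
    rw [← mul_sub, abs_mul, abs_of_pos hP.b0] at h1
    nlinarith [hP.b0, hP.b1, mul_le_mul_of_nonneg_left hl hP.b0.le]
  · show |P.c * gg P.κ x - P.c * gg P.κ y| ≤ _
    rw [← mul_sub, abs_mul, abs_of_pos hP.c0]
    nlinarith [hP.c0, hP.c1]
  · show |P.d * gg P.κ x - P.d * gg P.κ y| ≤ _
    rw [← mul_sub, abs_mul, abs_of_pos hP.d0]
    nlinarith [hP.d0, hP.d1]

lemma fm_inj (hP : Good P) (i : Fin 4) {x y : ℝ} (hx : x ∈ Icc (0 : ℝ) 1)
    (hy : y ∈ Icc (0 : ℝ) 1) (h : fm P i x = fm P i y) : x = y := by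
  have hgx := gg_mem hP.κ0 hx
  have hgy := gg_mem hP.κ0 hy
  fin_cases i
  · exact mul_left_cancel₀ hP.a0.ne' h
  · exact gg_inj hP.κ0 hx hy (mul_left_cancel₀ hP.b0.ne' (gg_inj hP.κ0
      (mul_mem_Icc hP.b0 hP.b1 hgx) (mul_mem_Icc hP.b0 hP.b1 hgy) h))
  · exact gg_inj hP.κ0 hx hy (mul_left_cancel₀ hP.c0.ne' h)
  · exact gg_inj hP.κ0 hx hy (mul_left_cancel₀ hP.d0.ne' h)

lemma word_nil {N : ℕ} (f : Fin N → ℝ → ℝ) (x : ℝ) : wordMap f [] x = x := rfl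

lemma word_cons {N : ℕ} (f : Fin N → ℝ → ℝ) (i : Fin N) (w : List (Fin N)) (x : ℝ) :
    wordMap f (i :: w) x = f i (wordMap f w x) := rfl

lemma word_append {N : ℕ} (f : Fin N → ℝ → ℝ) (u v : List (Fin N)) (x : ℝ) :
    wordMap f (u ++ v) x = wordMap f u (wordMap f v x) := by
  induction u with
  | nil => rfl
  | cons i u ih => rw [List.cons_append, word_cons, word_cons, ih]

lemma word_mem (hP : Good P) (w : List (Fin 4)) {x : ℝ} (hx : x ∈ Icc (0 : ℝ) 1) :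
    wordMap (fm P) w x ∈ Icc (0 : ℝ) 1 := by
  induction w with
  | nil => exact hx
  | cons i w ih => exact fm_mem hP i ih

lemma word_lip (hP : Good P) (w : List (Fin 4)) {x y : ℝ} (hx : x ∈ Icc (0 : ℝ) 1)
    (hy : y ∈ Icc (0 : ℝ) 1) :
    |wordMap (fm P) w x - wordMap (fm P) w y| ≤ (3 / 4) ^ w.length * |x - y| := by
  induction w with
  | nil => simp [word_nil]
  | cons i w ih =>
    rw [word_cons, word_cons, List.length_cons, pow_succ]
    have := fm_lip hP i (word_mem hP w hx) (word_mem hP w hy)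
    linarith

lemma word_inj (hP : Good P) (w : List (Fin 4)) {x y : ℝ} (hx : x ∈ Icc (0 : ℝ) 1)
    (hy : y ∈ Icc (0 : ℝ) 1) (h : wordMap (fm P) w x = wordMap (fm P) w y) : x = y := by
  induction w with
  | nil => exact h
  | cons i w ih => exact ih (fm_inj hP i (word_mem hP w hx) (word_mem hP w hy) h)

/-- Number of leading letters `1`. -/
def leadB : List (Fin 4) → ℕ
  | [] => 0
  | i :: w => if i = 1 then leadB w + 1 else 0

/-- Number of leading letters `0`, the next letter, and the number of letters `1` after it. -/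
def leadA : List (Fin 4) → ℕ × Fin 4 × ℕ
  | [] => (0, 0, 0)
  | i :: w => if i = 0 then ((leadA w).1 + 1, (leadA w).2) else (0, i, leadB w)

/-- An upper bound for all multipliers. -/
noncomputable def rho (P : Par) : ℝ := max (max P.a P.b) (max P.c P.d)

lemma a_le_rho : P.a ≤ rho P := (le_max_left _ _).trans (le_max_left _ _)
lemma b_le_rho : P.b ≤ rho P := (le_max_right _ _).trans (le_max_left _ _)
lemma c_le_rho : P.c ≤ rho P := (le_max_left _ _).trans (le_max_right _ _)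
lemma d_le_rho : P.d ≤ rho P := (le_max_right _ _).trans (le_max_right _ _)

lemma rho_le (hP : Good P) : rho P ≤ 1 / 4 :=
  max_le (max_le hP.a1 hP.b1) (max_le hP.c1 hP.d1)

lemma rho_pos (hP : Good P) : 0 < rho P := lt_of_lt_of_le hP.a0 a_le_rho

lemma mem_Icc_of_rho (hP : Good P) {z : ℝ} (hz : z ∈ Icc (0 : ℝ) (rho P)) :
    z ∈ Icc (0 : ℝ) 1 := ⟨hz.1, hz.2.trans ((rho_le hP).trans (by norm_num))⟩

lemma fm_small (hP : Good P) {i : Fin 4} (hi : i ≠ 1) {x : ℝ} (hx : x ∈ Icc (0 : ℝ) 1) :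
    fm P i x ∈ Icc (0 : ℝ) (rho P) := by
  have hg := gg_mem hP.κ0 hx
  refine ⟨(fm_mem hP i hx).1, ?_⟩
  fin_cases i
  · show P.a * x ≤ _
    have := a_le_rho (P := P)
    nlinarith [hP.a0, hx.1, hx.2]
  · exact absurd rfl hi
  · show P.c * gg P.κ x ≤ _
    have := c_le_rho (P := P)
    nlinarith [hP.c0, hg.1, hg.2]
  · show P.d * gg P.κ x ≤ _
    have := d_le_rho (P := P)
    nlinarith [hP.d0, hg.1, hg.2]

lemma gg_word (hP : Good P) (w : List (Fin 4)) {p : ℝ} (hp : p ∈ Icc (0 : ℝ) (rho P)) :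
    ∃ z ∈ Icc (0 : ℝ) (rho P), gg P.κ (wordMap (fm P) w p) = P.b ^ leadB w * gg P.κ z := by
  have hp' := mem_Icc_of_rho hP hp
  induction w with
  | nil => exact ⟨p, hp, by simp [leadB, word_nil]⟩
  | cons i w ih =>
    by_cases hi : i = 1
    · subst hi
      obtain ⟨z, hz, hz2⟩ := ih
      refine ⟨z, hz, ?_⟩
      rw [word_cons]
      have hw := gg_mem hP.κ0 (word_mem hP w hp')
      show gg P.κ (gg P.κ (P.b * gg P.κ (wordMap (fm P) w p))) = _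
      rw [gg_gg hP.κ0 (mul_mem_Icc hP.b0 hP.b1 hw), hz2]
      simp only [leadB, if_true]
      ring
    · refine ⟨wordMap (fm P) (i :: w) p, ?_, ?_⟩
      · rw [word_cons]
        exact fm_small hP hi (word_mem hP w hp')
      · simp [leadB, hi]

lemma word_lead (hP : Good P) (w : List (Fin 4)) {p : ℝ} (hp : p ∈ Icc (0 : ℝ) (rho P)) :
    ((leadA w).2.1 = 0 ∧ wordMap (fm P) w p = P.a ^ (leadA w).1 * p) ∨
    ∃ z ∈ Icc (0 : ℝ) (rho P),
      ((leadA w).2.1 = 1 ∧ wordMap (fm P) w p = P.a ^ (leadA w).1 * gg P.κ z) ∨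
      ((leadA w).2.1 = 2 ∧ wordMap (fm P) w p =
        P.a ^ (leadA w).1 * (P.c * P.b ^ (leadA w).2.2) * gg P.κ z) ∨
      ((leadA w).2.1 = 3 ∧ wordMap (fm P) w p =
        P.a ^ (leadA w).1 * (P.d * P.b ^ (leadA w).2.2) * gg P.κ z) := by
  have hp' := mem_Icc_of_rho hP hp
  induction w with
  | nil => left; simp [leadA, word_nil]
  | cons i w ih =>
    by_cases hi : i = 0
    · subst hi
      have hl : leadA (0 :: w) = ((leadA w).1 + 1, (leadA w).2) := by simp [leadA]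
      rw [hl, word_cons]
      show (_ ∧ P.a * wordMap (fm P) w p = _) ∨ ∃ z ∈ _, (_ ∧ P.a * wordMap (fm P) w p = _) ∨
        (_ ∧ P.a * wordMap (fm P) w p = _) ∨ (_ ∧ P.a * wordMap (fm P) w p = _)
      rcases ih with ⟨h1, h2⟩ | ⟨z, hz, ⟨h1, h2⟩ | ⟨h1, h2⟩ | ⟨h1, h2⟩⟩
      · left
        exact ⟨h1, by rw [h2, pow_succ]; ring⟩
      · right
        exact ⟨z, hz, Or.inl ⟨h1, by rw [h2, pow_succ]; ring⟩⟩
      · right
        exact ⟨z, hz, Or.inr (Or.inl ⟨h1, by rw [h2, pow_succ]; ring⟩)⟩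
      · right
        exact ⟨z, hz, Or.inr (Or.inr ⟨h1, by rw [h2, pow_succ]; ring⟩)⟩
    · have hl : leadA (i :: w) = (0, i, leadB w) := by simp [leadA, hi]
      rw [hl, word_cons]
      right
      obtain ⟨z, hz, hz2⟩ := gg_word hP w hp
      have hw := gg_mem hP.κ0 (word_mem hP w hp')
      fin_cases i
      · exact absurd rfl hi
      · refine ⟨P.b * gg P.κ (wordMap (fm P) w p), ⟨mul_nonneg hP.b0.le hw.1, ?_⟩,
          Or.inl ⟨rfl, ?_⟩⟩
        · have := b_le_rho (P := P)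
          nlinarith [hP.b0, hw.1, hw.2]
        · simp [fm]
      · refine ⟨z, hz, Or.inr (Or.inl ⟨rfl, ?_⟩)⟩
        show P.c * gg P.κ (wordMap (fm P) w p) = _
        rw [hz2]
        simp only [pow_zero]
        ring
      · refine ⟨z, hz, Or.inr (Or.inr ⟨rfl, ?_⟩)⟩
        show P.d * gg P.κ (wordMap (fm P) w p) = _
        rw [hz2]
        simp only [pow_zero]
        ring

end Pool.Agent.MP_6f21ce_an
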