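import Pool.Agent.MP_6f21ce_an.Decode

set_option autoImplicit false

namespace Pool.Agent.MP_6f21ce_an

open Set Filter

/-- The parameters with multipliers `exp(-A L)` etc. -/
noncomputable def par (κ A B C D L : ℝ) : Par :=
  ⟨κ, Real.exp (-(A * L)), Real.exp (-(B * L)), Real.exp (-(C * L)), Real.exp (-(D * L))⟩

structure Indep (A B C D : ℝ) : Prop where
  one : ∀ i j : ℤ, (i : ℝ) * A + j * B = 0 → i = 0 ∧ j = 0
  two : ∀ i j : ℤ, (i : ℝ) * A + j * B ≠ C
  three : ∀ i j : ℤ, (i : ℝ) * A + j * B ≠ D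
  four : ∀ i j : ℤ, (i : ℝ) * A + j * B ≠ C - D

noncomputable def kex (B C D : ℝ) : Fin 4 → ℕ → ℝ
  | 0 => fun _ => 0
  | 1 => fun _ => 0
  | 2 => fun m => C + m * B
  | 3 => fun m => D + m * B

noncomputable def ex (A B C D : ℝ) (τ : ℕ × Fin 4 × ℕ) : ℝ :=
  τ.1 * A + kex B C D τ.2.1 τ.2.2

lemma exp_small {X : ℝ} (hX : 0 < X) {η : ℝ} (hη : 0 < η) :
    ∀ᶠ L : ℝ in atTop, Real.exp (-(X * L)) < η := by
  have h : Tendsto (fun L : ℝ => Real.exp (-(X * L))) atTop (nhds 0) :=
    Real.tendsto_exp_neg_atTop_nhds_zero.comp (tendsto_id.const_mul_atTop hX)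
  exact h.eventually_lt_const hη

lemma good_par {κ A B C D : ℝ} (h0 : 0 < κ) (h1 : κ ≤ 1 / 2) (hA : 0 < A) (hB : 0 < B)
    (hC : 0 < C) (hD : 0 < D) : ∀ᶠ L : ℝ in atTop, Good (par κ A B C D L) := by
  filter_upwards [exp_small hA (show (0 : ℝ) < 1 / 4 by norm_num),
    exp_small hB (show (0 : ℝ) < 1 / 4 by norm_num),
    exp_small hC (show (0 : ℝ) < 1 / 4 by norm_num),
    exp_small hD (show (0 : ℝ) < 1 / 4 by norm_num)] with L h2 h3 h4 h5
  exact ⟨h0, h1, Real.exp_pos _, h2.le, Real.exp_pos _, h3.le, Real.exp_pos _, h4.le,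
    Real.exp_pos _, h5.le⟩

lemma exp_pow' (X L : ℝ) (n : ℕ) : Real.exp (-(X * L)) ^ n = Real.exp (-((n * X) * L)) := by
  rw [← Real.exp_nat_mul]
  congr 1
  ring

lemma word_lead_exp {κ A B C D L : ℝ} (hP : Good (par κ A B C D L)) (w : List (Fin 4)) {p : ℝ}
    (hp : p ∈ Icc (0 : ℝ) (rho (par κ A B C D L))) :
    ((leadA w).2.1 = 0 ∧
      wordMap (fm (par κ A B C D L)) w p = Real.exp (-(A * L)) ^ (leadA w).1 * p) ∨
    ((leadA w).2.1 ≠ 0 ∧ ∃ z ∈ Icc (0 : ℝ) (rho (par κ A B C D L)),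
      wordMap (fm (par κ A B C D L)) w p =
        Real.exp (-(ex A B C D (leadA w) * L)) * gg κ z) := by
  rcases word_lead hP w hp with ⟨h1, h2⟩ | ⟨z, hz, ⟨h1, h2⟩ | ⟨h1, h2⟩ | ⟨h1, h2⟩⟩
  · left
    exact ⟨h1, h2⟩
  · right
    refine ⟨by rw [h1]; decide, z, hz, ?_⟩
    rw [h2]
    show Real.exp (-(A * L)) ^ (leadA w).1 * gg κ z = _
    rw [exp_pow']
    simp [ex, h1, kex]
  · right
    refine ⟨by rw [h1]; decide, z, hz, ?_⟩
    rw [h2]
    show Real.exp (-(A * L)) ^ (leadA w).1 *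
      (Real.exp (-(C * L)) * Real.exp (-(B * L)) ^ (leadA w).2.2) * gg κ z = _
    rw [exp_pow', exp_pow', ← Real.exp_add, ← Real.exp_add]
    congr 2
    simp only [ex, h1, kex]
    ring
  · right
    refine ⟨by rw [h1]; decide, z, hz, ?_⟩
    rw [h2]
    show Real.exp (-(A * L)) ^ (leadA w).1 *
      (Real.exp (-(D * L)) * Real.exp (-(B * L)) ^ (leadA w).2.2) * gg κ z = _
    rw [exp_pow', exp_pow', ← Real.exp_add, ← Real.exp_add]
    congr 2
    simp only [ex, h1, kex]
    ring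

lemma leadA_zero (w : List (Fin 4)) : leadA (0 :: w) = ((leadA w).1 + 1, (leadA w).2) := by
  simp [leadA]

lemma leadA_ne {i : Fin 4} (hi : i ≠ 0) (w : List (Fin 4)) :
    leadA (i :: w) = (0, i, leadB w) := by
  simp [leadA, hi]

lemma ex_ne_zero_two {A B C D : ℝ} (h : Indep A B C D) (v v' : List (Fin 4))
    (hk : (leadA (0 :: v)).2.1 ≠ 0) :
    ex A B C D (leadA (0 :: v)) ≠ ex A B C D (leadA (2 :: v')) := by
  intro he
  rw [leadA_zero] at hk he
  rw [leadA_ne (by decide)] at he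
  simp only at hk
  generalize leadA v = τ at hk he
  obtain ⟨n, k, m⟩ := τ
  simp only [ex] at hk he
  fin_cases k
  · exact hk rfl
  · simp only [kex] at he
    push_cast at he
    apply h.two (n + 1) (-(leadB v' : ℤ))
    push_cast
    linarith
  · simp only [kex] at he
    push_cast at he
    have := h.one (n + 1) (m - leadB v') (by push_cast; linarith)
    omega
  · simp only [kex] at he
    push_cast at he
    apply h.four (n + 1) (m - leadB v')
    push_cast
    linarith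

lemma ex_ne_zero_three {A B C D : ℝ} (h : Indep A B C D) (v v' : List (Fin 4))
    (hk : (leadA (0 :: v)).2.1 ≠ 0) :
    ex A B C D (leadA (0 :: v)) ≠ ex A B C D (leadA (3 :: v')) := by
  intro he
  rw [leadA_zero] at hk he
  rw [leadA_ne (by decide)] at he
  simp only at hk
  generalize leadA v = τ at hk he
  obtain ⟨n, k, m⟩ := τ
  simp only [ex] at hk he
  fin_cases k
  · exact hk rfl
  · simp only [kex] at he
    push_cast at he
    apply h.three (n + 1) (-(leadB v' : ℤ))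
    push_cast
    linarith
  · simp only [kex] at he
    push_cast at he
    apply h.four (-(n + 1)) (leadB v' - m)
    push_cast
    linarith
  · simp only [kex] at he
    push_cast at he
    have := h.one (n + 1) (m - leadB v') (by push_cast; linarith)
    omega

lemma ex_ne_two_three {A B C D : ℝ} (h : Indep A B C D) (v v' : List (Fin 4)) :
    ex A B C D (leadA (2 :: v)) ≠ ex A B C D (leadA (3 :: v')) := by
  intro he
  rw [leadA_ne (by decide), leadA_ne (by decide)] at he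
  simp only [ex, kex] at he
  push_cast at he
  apply h.four 0 (leadB v' - leadB v)
  push_cast
  linarith

lemma ex_ne {A B C D : ℝ} (h : Indep A B C D) {i j : Fin 4} (hij : i ≠ j) (hi : i ≠ 1)
    (hj : j ≠ 1) (v v' : List (Fin 4)) (hk : (leadA (i :: v)).2.1 ≠ 0)
    (hk' : (leadA (j :: v')).2.1 ≠ 0) :
    ex A B C D (leadA (i :: v)) ≠ ex A B C D (leadA (j :: v')) := by
  fin_cases i <;> fin_cases j
  · exact absurd rfl hij
  · exact absurd rfl hj
  · exact ex_ne_zero_two h v v' hk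
  · exact ex_ne_zero_three h v v' hk
  · exact absurd rfl hi
  · exact absurd rfl hi
  · exact absurd rfl hi
  · exact absurd rfl hi
  · exact (ex_ne_zero_two h v' v hk').symm
  · exact absurd rfl hj
  · exact absurd rfl hij
  · exact ex_ne_two_three h v v'
  · exact (ex_ne_zero_three h v' v hk').symm
  · exact absurd rfl hj
  · exact (ex_ne_two_three h v' v).symm
  · exact absurd rfl hij

lemma kind_ne {i : Fin 4} (hi : i ≠ 0) (v : List (Fin 4)) : (leadA (i :: v)).2.1 ≠ 0 := by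
  rw [leadA_ne hi]
  exact hi

/-- Comparison of leading terms. -/
lemma compare {κ v v' : ℝ} (hv : v ≠ v') (h0 : 0 < κ) (h1 : κ ≤ 1 / 2) :
    ∀ᶠ L : ℝ in atTop, ∀ z z' : ℝ, z ∈ Icc (0 : ℝ) (1 / 4) → z' ∈ Icc (0 : ℝ) (1 / 4) →
      Real.exp (-(v * L)) * gg κ z ≠ Real.exp (-(v' * L)) * gg κ z' := by
  have key : ∀ v v' : ℝ, v < v' → ∀ᶠ L : ℝ in atTop, ∀ z z' : ℝ, z ∈ Icc (0 : ℝ) (1 / 4) →
      z' ∈ Icc (0 : ℝ) (1 / 4) →
      Real.exp (-(v * L)) * gg κ z ≠ Real.exp (-(v' * L)) * gg κ z' := by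
    intro v v' hvv
    filter_upwards [exp_small (show 0 < v' - v by linarith) (show (0 : ℝ) < 1 / 2 by norm_num)]
      with L hL z z' hz hz' he
    have hzI : z ∈ Icc (0 : ℝ) 1 := ⟨hz.1, hz.2.trans (by norm_num)⟩
    have hzI' : z' ∈ Icc (0 : ℝ) 1 := ⟨hz'.1, hz'.2.trans (by norm_num)⟩
    have h2 := gg_ge h0 h1 hzI
    have h3 := (gg_mem h0 hzI').2
    have h3' := (gg_mem h0 hzI').1
    have h4 : Real.exp (-(v' * L)) = Real.exp (-(v * L)) * Real.exp (-((v' - v) * L)) := by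
      rw [← Real.exp_add]
      congr 1
      ring
    rw [h4, mul_assoc] at he
    have h5 := mul_left_cancel₀ (Real.exp_pos _).ne' he
    have h6 : Real.exp (-((v' - v) * L)) * gg κ z' ≤ Real.exp (-((v' - v) * L)) * 1 :=
      mul_le_mul_of_nonneg_left h3 (Real.exp_pos _).le
    have h7 := hz.2
    linarith
  rcases lt_or_gt_of_ne hv with h | h
  · exact key v v' h
  · filter_upwards [key v' v h] with L hL z z' hz hz'
    exact (hL z' z hz' hz).symm

lemma decode_first {κ A B C D : ℝ} (h0 : 0 < κ) (h1 : κ ≤ 1 / 2) (hA : 0 < A) (hB : 0 < B)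
    (hC : 0 < C) (hD : 0 < D) (hI : Indep A B C D) {i j : Fin 4} (hij : i ≠ j)
    (v v' : List (Fin 4)) :
    ∀ᶠ L : ℝ in atTop, ∀ p ∈ Icc (0 : ℝ) 1,
      ¬ (wordMap (fm (par κ A B C D L)) (i :: v) p = p ∧
        wordMap (fm (par κ A B C D L)) (j :: v') p = p) := by
  -- the case where one of the letters is `1`
  have key1 : ∀ j : Fin 4, j ≠ 1 → ∀ v v' : List (Fin 4), ∀ᶠ L : ℝ in atTop,
      ∀ p ∈ Icc (0 : ℝ) 1, ¬ (wordMap (fm (par κ A B C D L)) (1 :: v) p = p ∧
        wordMap (fm (par κ A B C D L)) (j :: v') p = p) := by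
    intro j hj v v'
    filter_upwards [good_par h0 h1 hA hB hC hD] with L hP p hp hpp
    have e1 : wordMap (fm (par κ A B C D L)) (j :: v') p ∈ Icc (0 : ℝ) (rho (par κ A B C D L)) :=
      fm_small hP hj (word_mem hP v' hp)
    rw [hpp.2] at e1
    have hr := rho_le hP
    have hg := gg_mem hP.κ0 (word_mem hP v hp)
    have hm := mul_mem_Icc hP.b0 hP.b1 hg
    have e2 := gg_ge hP.κ0 hP.κ1 hm
    have e3 := hpp.1
    rw [word_cons] at e3
    have e4 : gg (par κ A B C D L).κ ((par κ A B C D L).b *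
      gg (par κ A B C D L).κ (wordMap (fm (par κ A B C D L)) v p)) = p := e3
    rw [e4] at e2
    have e5 := e1.2
    have e6 := hP.b1
    have e7 := hP.b0
    have e8 := hg.2
    have e9 : (par κ A B C D L).b *
      gg (par κ A B C D L).κ (wordMap (fm (par κ A B C D L)) v p) ≤ 1 / 4 := by
      nlinarith [hg.1]
    linarith
  by_cases hi : i = 1
  · subst hi
    exact key1 j (Ne.symm hij) v v'
  by_cases hj : j = 1
  · subst hj
    filter_upwards [key1 i hi v' v] with L hL p hp hpp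
    exact hL p hp ⟨hpp.2, hpp.1⟩
  -- zero kinds
  have key2 : ∀ w : List (Fin 4), ∀ L p : ℝ, Good (par κ A B C D L) →
      (leadA (0 :: w)).2.1 = 0 → wordMap (fm (par κ A B C D L)) (0 :: w) p = p →
      wordMap (fm (par κ A B C D L)) (0 :: w) p =
        Real.exp (-(A * L)) ^ (leadA (0 :: w)).1 * p → p = 0 := by
    intro w L p hP _ h2 h3
    rw [h2, leadA_zero] at h3
    have h4 : Real.exp (-(A * L)) ^ ((leadA w).1 + 1) < 1 := by
      apply pow_lt_one₀ (Real.exp_pos _).le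
      · have : (par κ A B C D L).a ≤ 1 / 4 := hP.a1
        have h5 : Real.exp (-(A * L)) ≤ 1 / 4 := this
        linarith
      · omega
    have h6 : p * (1 - Real.exp (-(A * L)) ^ ((leadA w).1 + 1)) = 0 := by
      have h7 : p = Real.exp (-(A * L)) ^ ((leadA w).1 + 1) * p := h3
      linarith
    rcases mul_eq_zero.1 h6 with h8 | h8
    · exact h8
    · linarith
  have key3 : ∀ κ' z v L : ℝ, 0 < κ' → z ∈ Icc (0 : ℝ) (1 / 4) →
      Real.exp (-(v * L)) * gg κ' z ≠ 0 := by
    intro κ' z v L hκ hz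
    apply mul_ne_zero (Real.exp_pos _).ne'
    unfold gg
    have : 0 ≤ κ' * z := mul_nonneg hκ.le hz.1
    apply div_ne_zero
    · have := hz.2
      intro h
      linarith
    · positivity
  have hmain : (leadA (i :: v)).2.1 ≠ 0 → (leadA (j :: v')).2.1 ≠ 0 →
      ∀ᶠ L : ℝ in atTop, ∀ z z' : ℝ, z ∈ Icc (0 : ℝ) (1 / 4) → z' ∈ Icc (0 : ℝ) (1 / 4) →
      Real.exp (-(ex A B C D (leadA (i :: v)) * L)) * gg κ z ≠
        Real.exp (-(ex A B C D (leadA (j :: v')) * L)) * gg κ z' :=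
    fun hk hk' => compare (ex_ne hI hij hi hj v v' hk hk') h0 h1
  have hmain' : ∀ᶠ L : ℝ in atTop, (leadA (i :: v)).2.1 ≠ 0 → (leadA (j :: v')).2.1 ≠ 0 →
      ∀ z z' : ℝ, z ∈ Icc (0 : ℝ) (1 / 4) → z' ∈ Icc (0 : ℝ) (1 / 4) →
      Real.exp (-(ex A B C D (leadA (i :: v)) * L)) * gg κ z ≠
        Real.exp (-(ex A B C D (leadA (j :: v')) * L)) * gg κ z' := by
    by_cases hk : (leadA (i :: v)).2.1 ≠ 0
    · by_cases hk' : (leadA (j :: v')).2.1 ≠ 0
      · filter_upwards [hmain hk hk'] with L hL _ _ using hL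
      · exact Eventually.of_forall fun L _ h => absurd h hk'
    · exact Eventually.of_forall fun L h => absurd h hk
  filter_upwards [good_par h0 h1 hA hB hC hD, hmain'] with L hP hL p hp hpp
  have hr := rho_le hP
  have e1 : wordMap (fm (par κ A B C D L)) (j :: v') p ∈ Icc (0 : ℝ) (rho (par κ A B C D L)) :=
    fm_small hP hj (word_mem hP v' hp)
  rw [hpp.2] at e1
  have hsub : ∀ z, z ∈ Icc (0 : ℝ) (rho (par κ A B C D L)) → z ∈ Icc (0 : ℝ) (1 / 4) :=
    fun z hz => ⟨hz.1, hz.2.trans hr⟩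
  rcases word_lead_exp hP (i :: v) e1 with ⟨hk, hw⟩ | ⟨hk, z, hz, hw⟩
  · have hi0 : i = 0 := by
      by_contra hne
      exact kind_ne hne v hk
    subst hi0
    have hp0 := key2 v L p hP hk hpp.1 hw
    rcases word_lead_exp hP (j :: v') e1 with ⟨hk', hw'⟩ | ⟨hk', z', hz', hw'⟩
    · exact kind_ne (Ne.symm hij) v' hk'
    · rw [hpp.2, hp0] at hw'
      exact key3 κ z' _ L h0 (hsub z' hz') hw'.symm
  · rcases word_lead_exp hP (j :: v') e1 with ⟨hk', hw'⟩ | ⟨hk', z', hz', hw'⟩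
    · have hj0 : j = 0 := by
        by_contra hne
        exact kind_ne hne v' hk'
      subst hj0
      have hp0 := key2 v' L p hP hk' hpp.2 hw'
      rw [hpp.1, hp0] at hw
      exact key3 κ z _ L h0 (hsub z hz) hw.symm
    · apply hL hk hk' z z' (hsub z hz) (hsub z' hz')
      rw [← hw, ← hw', hpp.1, hpp.2]

/-- First difference of two distinct lists of the same length. -/
lemma first_diff {ι : Type*} : ∀ (u v : List ι), u.length = v.length → u ≠ v →
    ∃ (P : List ι) (i j : ι) (u' v' : List ι), i ≠ j ∧ u = P ++ i :: u' ∧ v = P ++ j :: v' := by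
  intro u
  induction u with
  | nil =>
    intro v hl hne
    cases v with
    | nil => exact absurd rfl hne
    | cons j v => simp at hl
  | cons i u ih =>
    intro v hl hne
    cases v with
    | nil => simp at hl
    | cons j v =>
      by_cases hij : i = j
      · subst hij
        obtain ⟨P, a, b, u', v', hab, h1, h2⟩ := ih v (by simpa using hl)
          (fun h => hne (by rw [h]))
        exact ⟨i :: P, a, b, u', v', hab, by rw [h1]; rfl, by rw [h2]; rfl⟩
      · exact ⟨[], i, j, u, v, hij, rfl, rfl⟩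

theorem decode {κ A B C D : ℝ} (h0 : 0 < κ) (h1 : κ ≤ 1 / 2) (hA : 0 < A) (hB : 0 < B)
    (hC : 0 < C) (hD : 0 < D) (hI : Indep A B C D) (u v : List (Fin 4))
    (hl : u.length = v.length) (hne : u ≠ v) :
    ∀ᶠ L : ℝ in atTop, ∀ p ∈ Icc (0 : ℝ) 1,
      ¬ (wordMap (fm (par κ A B C D L)) u p = p ∧ wordMap (fm (par κ A B C D L)) v p = p) := by
  obtain ⟨P, i, j, u', v', hij, hu, hv⟩ := first_diff u v hl hne
  filter_upwards [good_par h0 h1 hA hB hC hD,
    decode_first h0 h1 hA hB hC hD hI hij (u' ++ P) (v' ++ P)] with L hP hL p hp hpp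
  set f := fm (par κ A B C D L) with hf
  rw [hu, hv, word_append, word_append] at hpp
  have hmu : wordMap f (i :: u') p ∈ Icc (0 : ℝ) 1 := word_mem hP _ hp
  have hmv : wordMap f (j :: v') p ∈ Icc (0 : ℝ) 1 := word_mem hP _ hp
  have heq : wordMap f (i :: u') p = wordMap f (j :: v') p :=
    word_inj hP P hmu hmv (by rw [← hf, hpp.1, hpp.2])
  apply hL (wordMap f (i :: u') p) hmu
  constructor
  · rw [← List.cons_append, word_append, hpp.1]
  · rw [← List.cons_append, word_append]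
    rw [heq, hpp.2]

end Pool.Agent.MP_6f21ce_an
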