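import Mathlib

set_option autoImplicit false

namespace Pool.Agent.MP_6f21ce_an

open Set Filter

/-- The open `δ`-neighbourhood `B_δ` of the interval `[0,1]` in the complex plane. -/
def B (δ : ℝ) : Set ℂ := Metric.thickening δ ((fun x : ℝ => (x : ℂ)) '' Icc 0 1)

/-- An analytic iterated function system for the parameter `ε`: at least two maps `f i : ℝ → ℝ`,
each one extending to a complex analytic map `F i` on `B_{2ε}`, mapping `[0,1]` into itself and the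
closure of `B_ε` into `B_ε`, with `0 < |F i'| < 1` on the closure of `B_ε`. -/
def IsAnalyticIFS (ε : ℝ) {N : ℕ} (f : Fin N → ℝ → ℝ) : Prop :=
  2 ≤ N ∧ ∃ F : Fin N → ℂ → ℂ, ∀ i,
    DifferentiableOn ℂ (F i) (B (2 * ε)) ∧
    (∀ x : ℝ, (x : ℂ) ∈ B (2 * ε) → F i x = (f i x : ℂ)) ∧
    (∀ x ∈ Icc (0 : ℝ) 1, f i x ∈ Icc (0 : ℝ) 1) ∧
    (∀ z ∈ closure (B ε), F i z ∈ B ε) ∧
    (∀ z ∈ closure (B ε), 0 < ‖deriv (F i) z‖ ∧ ‖deriv (F i) z‖ < 1)

/-- The composition `f_{i_1} ∘ ... ∘ f_{i_n}` along a finite word. -/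
def wordMap {N : ℕ} (f : Fin N → ℝ → ℝ) : List (Fin N) → ℝ → ℝ
  | [] => id
  | i :: w => f i ∘ wordMap f w

/-- The supremum over `[0,1]` of `|g - h|`. -/
noncomputable def supDist (g h : ℝ → ℝ) : ℝ := sSup ((fun x => |g x - h x|) '' Icc 0 1)

/-- The exponential separation condition. -/
def ESC {N : ℕ} (f : Fin N → ℝ → ℝ) : Prop :=
  ∃ c : ℝ, 0 < c ∧ ∃ᶠ n : ℕ in atTop, ∀ u v : List (Fin N), u.length = n → v.length = n → u ≠ v →
    c ^ n ≤ supDist (wordMap f u) (wordMap f v)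

/-- There is an exact overlap: two distinct finite words with the same composition on `[0,1]`. -/
def HasExactOverlap {N : ℕ} (f : Fin N → ℝ → ℝ) : Prop :=
  ∃ u v : List (Fin N), u ≠ v ∧ EqOn (wordMap f u) (wordMap f v) (Icc 0 1)

/-- The system is sub-conjugated to a self-similar one: for two distinct words `u, v` of the same
length, both compositions are conjugated to similarities by one analytic injective map on
`[0,1]`. -/
def SubConjugated {N : ℕ} (f : Fin N → ℝ → ℝ) : Prop :=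
  ∃ u v : List (Fin N), u ≠ v ∧ u.length = v.length ∧
    ∃ g : ℝ → ℝ, AnalyticOnNhd ℝ g (Icc 0 1) ∧ InjOn g (Icc 0 1) ∧
      ∃ l₁ l₂ t₁ t₂ : ℝ, l₁ ∈ Ioo (-1 : ℝ) 1 ∧ l₁ ≠ 0 ∧ l₂ ∈ Ioo (-1 : ℝ) 1 ∧ l₂ ≠ 0 ∧
        ∀ x ∈ Icc (0 : ℝ) 1, g (wordMap f u x) = l₁ * g x + t₁ ∧ g (wordMap f v x) = l₂ * g x + t₂

end Pool.Agent.MP_6f21ce_an
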