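import Pool.Agent.MP_6f21ce_an.Decode2

set_option autoImplicit false

namespace Pool.Agent.MP_6f21ce_an

open Set Filter Matrix

/-- Zeros of a nonzero real analytic function on the line are countable. -/
lemma countable_zeros {f : ℝ → ℝ} (hf : AnalyticOnNhd ℝ f univ) {x₀ : ℝ} (hx : f x₀ ≠ 0) :
    {x | f x = 0}.Countable := by
  rcases hf.eqOn_zero_or_eventually_ne_zero_of_preconnected isPreconnected_univ with h | h
  · exact absurd (h (mem_univ x₀)) hx
  · have h2 : ({x | f x = 0} ∩ univ).Countable := by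
      apply (HereditarilyLindelofSpace.isLindelof _).countable_of_isDiscrete
        (isDiscrete_of_codiscreteWithin _)
      simpa using! h
    simpa using h2

/-- The dual letters. -/
noncomputable def fd (P : Par) : Fin 4 → ℝ → ℝ
  | 0 => fun s => P.a * s
  | 1 => fun s => gg P.κ (P.b * gg P.κ s)
  | 2 => fun s => gg P.κ (P.c * s)
  | 3 => fun s => gg P.κ (P.d * s)

noncomputable def dualMap (P : Par) : List (Fin 4) → ℝ → ℝ
  | [] => id
  | i :: w => dualMap P w ∘ fd P i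

/-- Exchange of the roles of the letters `0` and `1`. -/
def sw : Fin 4 → Fin 4
  | 0 => 1
  | 1 => 0
  | 2 => 2
  | 3 => 3

lemma sw_sw (i : Fin 4) : sw (sw i) = i := by fin_cases i <;> rfl

def swPar (P : Par) : Par := ⟨P.κ, P.b, P.a, P.c, P.d⟩

lemma good_sw {P : Par} (hP : Good P) : Good (swPar P) :=
  ⟨hP.κ0, hP.κ1, hP.b0, hP.b1, hP.a0, hP.a1, hP.c0, hP.c1, hP.d0, hP.d1⟩

lemma fd_mem {P : Par} (hP : Good P) (i : Fin 4) {x : ℝ} (hx : x ∈ Icc (0 : ℝ) 1) :
    fd P i x ∈ Icc (0 : ℝ) 1 := by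
  have hg := gg_mem hP.κ0 hx
  fin_cases i
  · exact mul_mem_Icc hP.a0 hP.a1 hx
  · exact gg_mem hP.κ0 (mul_mem_Icc hP.b0 hP.b1 hg)
  · exact gg_mem hP.κ0 (mul_mem_Icc hP.c0 hP.c1 hx)
  · exact gg_mem hP.κ0 (mul_mem_Icc hP.d0 hP.d1 hx)

lemma gg_fd {P : Par} (hP : Good P) (i : Fin 4) {x : ℝ} (hx : x ∈ Icc (0 : ℝ) 1) :
    gg P.κ (fd P i x) = fm (swPar P) (sw i) (gg P.κ x) := by
  have hg := gg_mem hP.κ0 hx
  fin_cases i
  · show gg P.κ (P.a * x) = gg P.κ (P.a * gg P.κ (gg P.κ x))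
    rw [gg_gg hP.κ0 hx]
  · show gg P.κ (gg P.κ (P.b * gg P.κ x)) = P.b * gg P.κ x
    rw [gg_gg hP.κ0 (mul_mem_Icc hP.b0 hP.b1 hg)]
  · show gg P.κ (gg P.κ (P.c * x)) = P.c * gg P.κ (gg P.κ x)
    rw [gg_gg hP.κ0 (mul_mem_Icc hP.c0 hP.c1 hx), gg_gg hP.κ0 hx]
  · show gg P.κ (gg P.κ (P.d * x)) = P.d * gg P.κ (gg P.κ x)
    rw [gg_gg hP.κ0 (mul_mem_Icc hP.d0 hP.d1 hx), gg_gg hP.κ0 hx]

lemma dual_cons (P : Par) (i : Fin 4) (w : List (Fin 4)) (x : ℝ) :
    dualMap P (i :: w) x = dualMap P w (fd P i x) := rfl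

lemma dual_mem {P : Par} (hP : Good P) (w : List (Fin 4)) {x : ℝ} (hx : x ∈ Icc (0 : ℝ) 1) :
    dualMap P w x ∈ Icc (0 : ℝ) 1 := by
  induction w generalizing x with
  | nil => exact hx
  | cons i w ih => exact ih (fd_mem hP i hx)

/-- The word describing the dual map. -/
def dw (w : List (Fin 4)) : List (Fin 4) := (w.map sw).reverse

lemma dw_length (w : List (Fin 4)) : (dw w).length = w.length := by simp [dw]

lemma dw_inj {u v : List (Fin 4)} (h : dw u = dw v) : u = v := by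
  have h1 : u.map sw = v.map sw := by
    have := congrArg List.reverse h
    simpa [dw] using this
  have h2 : Function.Injective sw := by
    intro a b hab
    rw [← sw_sw a, ← sw_sw b, hab]
  exact (List.map_injective_iff.2 h2) h1

lemma gg_dual {P : Par} (hP : Good P) (w : List (Fin 4)) {x : ℝ} (hx : x ∈ Icc (0 : ℝ) 1) :
    gg P.κ (dualMap P w x) = wordMap (fm (swPar P)) (dw w) (gg P.κ x) := by
  induction w generalizing x with
  | nil => rfl
  | cons i w ih =>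
    have h1 : dw (i :: w) = dw w ++ [sw i] := by simp [dw]
    rw [h1, word_append, dual_cons, ih (fd_mem hP i hx), gg_fd hP i hx]
    rfl

lemma exists_fix {P : Par} (hP : Good P) (w : List (Fin 4)) :
    ∃ p ∈ Icc (0 : ℝ) 1, wordMap (fm P) w p = p := by
  have hc : ContinuousOn (wordMap (fm P) w) (Icc (0 : ℝ) 1) := by
    have hl : LipschitzOnWith 1 (wordMap (fm P) w) (Icc (0 : ℝ) 1) := by
      apply LipschitzOnWith.of_dist_le_mul
      intro x hx y hy
      rw [Real.dist_eq, Real.dist_eq]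
      have h1 := word_lip hP w hx hy
      have h2 : ((3 : ℝ) / 4) ^ w.length ≤ 1 := pow_le_one₀ (by norm_num) (by norm_num)
      have h3 := abs_nonneg (x - y)
      calc _ ≤ _ := h1
        _ ≤ 1 * |x - y| := mul_le_mul_of_nonneg_right h2 h3
        _ = _ := by simp
    exact hl.continuousOn
  obtain ⟨p, hp, hp2⟩ := exists_mem_Icc_isFixedPt_of_mapsTo hc zero_le_one
    (fun x hx => word_mem hP w hx)
  exact ⟨p, hp, hp2⟩

lemma exists_dual_fix {P : Par} (hP : Good P) (w : List (Fin 4)) :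
    ∃ s ∈ Icc (0 : ℝ) 1, dualMap P w s = s := by
  obtain ⟨y, hy, hy2⟩ := exists_fix (good_sw hP) (dw w)
  have hs : gg P.κ y ∈ Icc (0 : ℝ) 1 := gg_mem hP.κ0 hy
  refine ⟨gg P.κ y, hs, ?_⟩
  apply gg_inj hP.κ0 (dual_mem hP w hs) hs
  rw [gg_dual hP w hs, gg_gg hP.κ0 hy, hy2]

/-- The matrices of the letters. -/
noncomputable def mat (P : Par) : Fin 4 → Matrix (Fin 2) (Fin 2) ℝ
  | 0 => !![P.a, 0; 0, 1]
  | 1 => !![P.b + P.κ, 1 - P.b; P.κ - P.κ * P.b, 1 + P.κ * P.b]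
  | 2 => !![-P.c, P.c; P.κ, 1]
  | 3 => !![-P.d, P.d; P.κ, 1]

noncomputable def wmat (P : Par) (w : List (Fin 4)) : Matrix (Fin 2) (Fin 2) ℝ :=
  (w.map (mat P)).prod

lemma wmat_cons (P : Par) (i : Fin 4) (w : List (Fin 4)) :
    wmat P (i :: w) = mat P i * wmat P w := by simp [wmat]

/-- formula for the letter `1` -/
lemma letter_one {P : Par} (hP : Good P) {z : ℝ} (hz : z ∈ Icc (0 : ℝ) 1) :
    gg P.κ (P.b * gg P.κ z) * ((P.κ - P.κ * P.b) * z + (1 + P.κ * P.b)) =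
      (P.b + P.κ) * z + (1 - P.b) := by
  have hd := den_pos hP.κ0 hz
  have hg := gg_mem hP.κ0 hz
  have hm := mul_mem_Icc hP.b0 hP.b1 hg
  have hd2 := den_pos hP.κ0 hm
  have e1 : (1 + P.κ * z) * gg P.κ z = 1 - z := by
    unfold gg
    field_simp
  have e2 : (1 + P.κ * (P.b * gg P.κ z)) * gg P.κ (P.b * gg P.κ z) = 1 - P.b * gg P.κ z := by
    have : gg P.κ (P.b * gg P.κ z) = (1 - P.b * gg P.κ z) / (1 + P.κ * (P.b * gg P.κ z)) := rfl
    rw [this, mul_div_assoc', mul_comm, mul_div_assoc, div_self hd2.ne', mul_one]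
  set G := gg P.κ z
  set H := gg P.κ (P.b * G)
  have e3 : (P.κ - P.κ * P.b) * z + (1 + P.κ * P.b) =
      (1 + P.κ * z) * (1 + P.κ * (P.b * G)) := by
    linear_combination (-P.κ * P.b) * e1
  have e4 : (P.b + P.κ) * z + (1 - P.b) = (1 + P.κ * z) * (1 - P.b * G) := by
    linear_combination P.b * e1
  rw [e3, e4, ← e2]
  ring

lemma mat_right {P : Par} (hP : Good P) (i : Fin 4) {z : ℝ} (hz : z ∈ Icc (0 : ℝ) 1) :
    ∃ t : ℝ, 0 < t ∧ mat P i *ᵥ ![z, 1] = t • ![fm P i z, 1] := by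
  have hd := den_pos hP.κ0 hz
  have e1 : (1 + P.κ * z) * gg P.κ z = 1 - z := by
    unfold gg
    field_simp
  fin_cases i
  · refine ⟨1, one_pos, ?_⟩
    ext j
    fin_cases j
    · simp [mat, fm, Matrix.mulVec, dotProduct, Fin.sum_univ_two]
    · simp [mat, fm, Matrix.mulVec, dotProduct, Fin.sum_univ_two]
  · refine ⟨(P.κ - P.κ * P.b) * z + (1 + P.κ * P.b), ?_, ?_⟩
    · have h1 := hP.κ0
      have h2 := hP.b1
      have h3 := hP.b0
      have h4 : 0 ≤ (P.κ - P.κ * P.b) * z := by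
        apply mul_nonneg _ hz.1
        nlinarith
      have h5 : 0 < P.κ * P.b := mul_pos h1 h3
      linarith
    · have := letter_one hP hz
      ext j
      fin_cases j
      · simp [mat, fm, Matrix.mulVec, dotProduct, Fin.sum_univ_two]
        linarith
      · simp [mat, fm, Matrix.mulVec, dotProduct, Fin.sum_univ_two]
  · refine ⟨1 + P.κ * z, hd, ?_⟩
    ext j
    fin_cases j
    · simp [mat, fm, Matrix.mulVec, dotProduct, Fin.sum_univ_two]
      linear_combination (-P.c) * e1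
    · simp [mat, fm, Matrix.mulVec, dotProduct, Fin.sum_univ_two]
      ring
  · refine ⟨1 + P.κ * z, hd, ?_⟩
    ext j
    fin_cases j
    · simp [mat, fm, Matrix.mulVec, dotProduct, Fin.sum_univ_two]
      linear_combination (-P.d) * e1
    · simp [mat, fm, Matrix.mulVec, dotProduct, Fin.sum_univ_two]
      ring

lemma mat_left {P : Par} (hP : Good P) (i : Fin 4) {s : ℝ} (hs : s ∈ Icc (0 : ℝ) 1) :
    ∃ t : ℝ, 0 < t ∧ ![P.κ * s, 1] ᵥ* mat P i = t • ![P.κ * fd P i s, 1] := by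
  have hc := mul_mem_Icc hP.c0 hP.c1 hs
  have hd := mul_mem_Icc hP.d0 hP.d1 hs
  have hdc := den_pos hP.κ0 hc
  have hdd := den_pos hP.κ0 hd
  have e1 : (1 + P.κ * (P.c * s)) * gg P.κ (P.c * s) = 1 - P.c * s := by
    have : gg P.κ (P.c * s) = (1 - P.c * s) / (1 + P.κ * (P.c * s)) := rfl
    rw [this, mul_div_assoc', mul_comm, mul_div_assoc, div_self hdc.ne', mul_one]
  have e2 : (1 + P.κ * (P.d * s)) * gg P.κ (P.d * s) = 1 - P.d * s := by
    have : gg P.κ (P.d * s) = (1 - P.d * s) / (1 + P.κ * (P.d * s)) := rfl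
    rw [this, mul_div_assoc', mul_comm, mul_div_assoc, div_self hdd.ne', mul_one]
  fin_cases i
  · refine ⟨1, one_pos, ?_⟩
    ext j
    fin_cases j
    · simp [mat, fd, Matrix.vecMul, dotProduct, Fin.sum_univ_two]
      ring
    · simp [mat, fd, Matrix.vecMul, dotProduct, Fin.sum_univ_two]
  · refine ⟨(P.κ - P.κ * P.b) * s + (1 + P.κ * P.b), ?_, ?_⟩
    · have h1 := hP.κ0
      have h2 := hP.b1
      have h3 := hP.b0
      have h4 : 0 ≤ (P.κ - P.κ * P.b) * s := by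
        apply mul_nonneg _ hs.1
        nlinarith
      have h5 : 0 < P.κ * P.b := mul_pos h1 h3
      linarith
    · have := letter_one hP hs
      ext j
      fin_cases j
      · simp [mat, fd, Matrix.vecMul, dotProduct, Fin.sum_univ_two]
        linear_combination (-P.κ) * this
      · simp [mat, fd, Matrix.vecMul, dotProduct, Fin.sum_univ_two]
        ring
  · refine ⟨1 + P.κ * (P.c * s), hdc, ?_⟩
    ext j
    fin_cases j
    · simp [mat, fd, Matrix.vecMul, dotProduct, Fin.sum_univ_two]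
      linear_combination (-P.κ) * e1
    · simp [mat, fd, Matrix.vecMul, dotProduct, Fin.sum_univ_two]
      ring
  · refine ⟨1 + P.κ * (P.d * s), hdd, ?_⟩
    ext j
    fin_cases j
    · simp [mat, fd, Matrix.vecMul, dotProduct, Fin.sum_univ_two]
      linear_combination (-P.κ) * e2
    · simp [mat, fd, Matrix.vecMul, dotProduct, Fin.sum_univ_two]
      ring

lemma wmat_right {P : Par} (hP : Good P) (w : List (Fin 4)) {z : ℝ} (hz : z ∈ Icc (0 : ℝ) 1) :
    ∃ t : ℝ, 0 < t ∧ wmat P w *ᵥ ![z, 1] = t • ![wordMap (fm P) w z, 1] := by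
  induction w with
  | nil => exact ⟨1, one_pos, by simp [wmat, wordMap]⟩
  | cons i w ih =>
    obtain ⟨t, ht, h1⟩ := ih
    obtain ⟨t', ht', h2⟩ := mat_right hP i (word_mem hP w hz)
    refine ⟨t * t', mul_pos ht ht', ?_⟩
    rw [wmat_cons, ← Matrix.mulVec_mulVec, h1, Matrix.mulVec_smul, h2, smul_smul]
    rfl

lemma wmat_left {P : Par} (hP : Good P) (w : List (Fin 4)) {s : ℝ} (hs : s ∈ Icc (0 : ℝ) 1) :
    ∃ t : ℝ, 0 < t ∧ ![P.κ * s, 1] ᵥ* wmat P w = t • ![P.κ * dualMap P w s, 1] := by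
  induction w generalizing s with
  | nil => exact ⟨1, one_pos, by simp [wmat, dualMap]⟩
  | cons i w ih =>
    obtain ⟨t', ht', h2⟩ := mat_left hP i hs
    obtain ⟨t, ht, h1⟩ := ih (fd_mem hP i hs)
    refine ⟨t' * t, mul_pos ht' ht, ?_⟩
    rw [wmat_cons, ← Matrix.vecMul_vecMul, h2, Matrix.smul_vecMul, h1, smul_smul]
    rfl

/-- The commutator determinant. -/
noncomputable def comm (M N : Matrix (Fin 2) (Fin 2) ℝ) : ℝ := (M * N - N * M).det

lemma comm_eq_zero_of_left {M N : Matrix (Fin 2) (Fin 2) ℝ} {x m n : ℝ}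
    (hM : ![x, 1] ᵥ* M = m • ![x, 1]) (hN : ![x, 1] ᵥ* N = n • ![x, 1]) : comm M N = 0 := by
  unfold comm
  rw [← Matrix.exists_vecMul_eq_zero_iff]
  refine ⟨![x, 1], ?_, ?_⟩
  · intro h
    have := congrFun h 1
    simp at this
  · rw [Matrix.vecMul_sub, ← Matrix.vecMul_vecMul, ← Matrix.vecMul_vecMul, hM, hN,
      Matrix.smul_vecMul, Matrix.smul_vecMul, hM, hN, smul_smul, smul_smul, mul_comm, sub_self]

/-- Entries of a matrix from its right and left eigenvectors. -/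
lemma entries {M : Matrix (Fin 2) (Fin 2) ℝ} {p x m n : ℝ} (hp : p ∈ Icc (0 : ℝ) 1)
    (hx : x ∈ Icc (0 : ℝ) (1 / 2)) (hR : M *ᵥ ![p, 1] = m • ![p, 1])
    (hL : ![x, 1] ᵥ* M = n • ![x, 1]) :
    M 0 1 * (1 - x * p) = -((M 0 0 - M 1 1) * p) ∧ M 1 0 * (1 - x * p) = -(x * (M 0 0 - M 1 1)) := by
  have r0 := congrFun hR 0
  have r1 := congrFun hR 1
  have l0 := congrFun hL 0
  have l1 := congrFun hL 1
  simp [Matrix.mulVec, Matrix.vecMul, dotProduct, Fin.sum_univ_two] at r0 r1 l0 l1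
  have h1 : M 0 0 * p + M 0 1 = p * (M 1 0 * p + M 1 1) := by rw [r1]; linarith
  have h2 : x * M 0 0 + M 1 0 = x * (x * M 0 1 + M 1 1) := by rw [l1]; linarith
  have hxp : 0 ≤ x * p := mul_nonneg hx.1 hp.1
  have h3 : (1 + x * p) ≠ 0 := by positivity
  have h4 : M 0 1 * (1 - x * p) = -((M 0 0 - M 1 1) * p) := by
    apply mul_left_cancel₀ h3
    linear_combination h1 + p ^ 2 * h2
  refine ⟨h4, ?_⟩
  linear_combination (1 - x * p) * h2 + x ^ 2 * h4

lemma of_comm_eq_zero {M N : Matrix (Fin 2) (Fin 2) ℝ} {p x m n p' x' m' n' : ℝ}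
    (hp : p ∈ Icc (0 : ℝ) 1) (hx : x ∈ Icc (0 : ℝ) (1 / 2))
    (hp' : p' ∈ Icc (0 : ℝ) 1) (hx' : x' ∈ Icc (0 : ℝ) (1 / 2))
    (hR : M *ᵥ ![p, 1] = m • ![p, 1]) (hL : ![x, 1] ᵥ* M = n • ![x, 1])
    (hR' : N *ᵥ ![p', 1] = m' • ![p', 1]) (hL' : ![x', 1] ᵥ* N = n' • ![x', 1])
    (hM : M 0 0 ≠ M 1 1) (hN : N 0 0 ≠ N 1 1) (h : comm M N = 0) : p = p' ∨ x = x' := by
  obtain ⟨e1, e2⟩ := entries hp hx hR hL
  obtain ⟨e3, e4⟩ := entries hp' hx' hR' hL'
  have hdet : comm M N = -(M 0 1 * N 1 0 - N 0 1 * M 1 0) ^ 2 -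
      (M 0 0 * N 0 1 + M 0 1 * N 1 1 - N 0 0 * M 0 1 - N 0 1 * M 1 1) *
      (M 1 0 * N 0 0 + M 1 1 * N 1 0 - N 1 0 * M 0 0 - N 1 1 * M 1 0) := by
    unfold comm
    rw [Matrix.det_fin_two]
    simp only [Matrix.sub_apply, Matrix.mul_apply, Fin.sum_univ_two]
    ring
  set a := M 0 0
  set b := M 0 1
  set c := M 1 0
  set d := M 1 1
  set a' := N 0 0
  set b' := N 0 1
  set c' := N 1 0
  set d' := N 1 1
  have hxp : 0 ≤ x * p := mul_nonneg hx.1 hp.1
  have hxp' : 0 ≤ x' * p' := mul_nonneg hx'.1 hp'.1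
  have hy : 0 < 1 - x * p := by nlinarith [hx.2, hp.2, hx.1, hp.1]
  have hy' : 0 < 1 - x' * p' := by nlinarith [hx'.2, hp'.2, hx'.1, hp'.1]
  have key : comm M N * ((1 - x * p) * (1 - x' * p')) ^ 2 =
      (a - d) ^ 2 * (a' - d') ^ 2 * ((p - p') * (x - x') * ((1 + p' * x) * (1 + p * x'))) := by
    have h0 : comm M N * ((1 - x * p) * (1 - x' * p')) ^ 2 =
        -((b * (1 - x * p)) * (c' * (1 - x' * p')) - (b' * (1 - x' * p')) * (c * (1 - x * p))) ^ 2 -
        ((a - d) * (b' * (1 - x' * p')) * (1 - x * p) -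
          (a' - d') * (b * (1 - x * p)) * (1 - x' * p')) *
        ((a' - d') * (c * (1 - x * p)) * (1 - x' * p') -
          (a - d) * (c' * (1 - x' * p')) * (1 - x * p)) := by
      rw [hdet]
      ring
    rw [h0, e1, e2, e3, e4]
    ring
  rw [h, zero_mul] at key
  have h1 : a - d ≠ 0 := sub_ne_zero.2 hM
  have h2 : a' - d' ≠ 0 := sub_ne_zero.2 hN
  have h3 : (1 + p' * x) ≠ 0 := by
    have := mul_nonneg hp'.1 hx.1
    positivity
  have h4 : (1 + p * x') ≠ 0 := by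
    have := mul_nonneg hp.1 hx'.1
    positivity
  have h5 : (p - p') * (x - x') = 0 := by
    have h6 := key.symm
    rcases mul_eq_zero.1 h6 with h7 | h7
    · exact absurd h7 (mul_ne_zero (pow_ne_zero 2 h1) (pow_ne_zero 2 h2))
    · rcases mul_eq_zero.1 h7 with h8 | h8
      · exact h8
      · exact absurd h8 (mul_ne_zero h3 h4)
  rcases mul_eq_zero.1 h5 with h6 | h6
  · left; linarith
  · right; linarith

/-- The matrix of a nonempty word is not a multiple of the identity. -/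
lemma diag_ne {P : Par} (hP : Good P) {w : List (Fin 4)} (hw : w ≠ []) :
    wmat P w 0 0 ≠ wmat P w 1 1 := by
  intro h
  obtain ⟨p, hp, hp2⟩ := exists_fix hP w
  obtain ⟨s, hs, hs2⟩ := exists_dual_fix hP w
  obtain ⟨t, ht, hR⟩ := wmat_right hP w hp
  obtain ⟨t', ht', hL⟩ := wmat_left hP w hs
  rw [hp2] at hR
  rw [hs2] at hL
  have hx : P.κ * s ∈ Icc (0 : ℝ) (1 / 2) := by
    refine ⟨mul_nonneg hP.κ0.le hs.1, ?_⟩
    have := hP.κ1
    have := hP.κ0
    nlinarith [hs.1, hs.2]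
  obtain ⟨e1, e2⟩ := entries hp hx hR hL
  have hy : 0 < 1 - P.κ * s * p := by nlinarith [hx.2, hp.2, hx.1, hp.1]
  rw [h, sub_self, zero_mul, neg_zero] at e1
  rw [h, sub_self, mul_zero, neg_zero] at e2
  have f1 := (mul_eq_zero.1 e1).resolve_right hy.ne'
  have f2 := (mul_eq_zero.1 e2).resolve_right hy.ne'
  -- the map of the word would be the identity
  have hid : ∀ z ∈ Icc (0 : ℝ) 1, wordMap (fm P) w z = z := by
    intro z hz
    obtain ⟨u, hu, hu2⟩ := wmat_right hP w hz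
    have g0 := congrFun hu2 0
    have g1 := congrFun hu2 1
    simp [Matrix.mulVec, dotProduct, Fin.sum_univ_two, f1, f2] at g0 g1
    rw [h, g1] at g0
    exact (mul_left_cancel₀ hu.ne' g0).symm
  cases w with
  | nil => exact hw rfl
  | cons i w =>
    have h0 := hid 0 ⟨le_rfl, zero_le_one⟩
    have h1 := hid 1 ⟨zero_le_one, le_rfl⟩
    have hl := word_lip hP (i :: w) (x := 1) (y := 0) ⟨zero_le_one, le_rfl⟩ ⟨le_rfl, zero_le_one⟩
    rw [h0, h1] at hl
    have h3 : ((3 : ℝ) / 4) ^ (w.length + 1) < 1 :=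
      pow_lt_one₀ (by norm_num) (by norm_num) (by omega)
    norm_num at hl
    linarith

/-- Common fixed points of the words or of the dual words, from the vanishing of the commutator
determinant. -/
lemma fix_of_comm {P : Par} (hP : Good P) {u v : List (Fin 4)} (hu : u ≠ []) (hv : v ≠ [])
    (h : comm (wmat P u) (wmat P v) = 0) :
    (∃ p ∈ Icc (0 : ℝ) 1, wordMap (fm P) u p = p ∧ wordMap (fm P) v p = p) ∨
    (∃ s ∈ Icc (0 : ℝ) 1, dualMap P u s = s ∧ dualMap P v s = s) := by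
  obtain ⟨p, hp, hp2⟩ := exists_fix hP u
  obtain ⟨s, hs, hs2⟩ := exists_dual_fix hP u
  obtain ⟨t, ht, hR⟩ := wmat_right hP u hp
  obtain ⟨t', ht', hL⟩ := wmat_left hP u hs
  obtain ⟨p', hp', hp2'⟩ := exists_fix hP v
  obtain ⟨s', hs', hs2'⟩ := exists_dual_fix hP v
  obtain ⟨r, hr, hR'⟩ := wmat_right hP v hp'
  obtain ⟨r', hr', hL'⟩ := wmat_left hP v hs'
  rw [hp2] at hR
  rw [hs2] at hL
  rw [hp2'] at hR'
  rw [hs2'] at hL'
  have hx : ∀ s ∈ Icc (0 : ℝ) 1, P.κ * s ∈ Icc (0 : ℝ) (1 / 2) := by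
    intro s hs
    refine ⟨mul_nonneg hP.κ0.le hs.1, ?_⟩
    have := hP.κ1
    have := hP.κ0
    nlinarith [hs.1, hs.2]
  rcases of_comm_eq_zero hp (hx s hs) hp' (hx s' hs') hR hL hR' hL' (diag_ne hP hu)
    (diag_ne hP hv) h with h1 | h1
  · left
    exact ⟨p, hp, hp2, by rw [h1]; exact hp2'⟩
  · right
    have h2 : s = s' := mul_left_cancel₀ hP.κ0.ne' h1
    exact ⟨s, hs, hs2, by rw [h2]; exact hs2'⟩

lemma analytic_wmat (κ A B C D : ℝ) (w : List (Fin 4)) (i j : Fin 2) :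
    AnalyticOnNhd ℝ (fun L => wmat (par κ A B C D L) w i j) univ := by
  have hexp : ∀ X : ℝ, AnalyticOnNhd ℝ (fun L : ℝ => Real.exp (-(X * L))) univ := by
    intro X x _
    apply AnalyticAt.rexp
    fun_prop
  induction w generalizing i j with
  | nil =>
    have : (fun L => wmat (par κ A B C D L) [] i j) = fun _ => (1 : Matrix (Fin 2) (Fin 2) ℝ) i j := by
      funext L
      simp [wmat]
    rw [this]
    exact analyticOnNhd_const
  | cons c w ih =>
    have h1 : (fun L => wmat (par κ A B C D L) (c :: w) i j) = fun L =>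
        mat (par κ A B C D L) c i 0 * wmat (par κ A B C D L) w 0 j +
        mat (par κ A B C D L) c i 1 * wmat (par κ A B C D L) w 1 j := by
      funext L
      rw [wmat_cons, Matrix.mul_apply, Fin.sum_univ_two]
    rw [h1]
    have h2 : ∀ k : Fin 2, AnalyticOnNhd ℝ (fun L => mat (par κ A B C D L) c i k) univ := by
      intro k
      fin_cases c <;> fin_cases i <;> fin_cases k <;> simp [mat, par] <;>
      first
        | exact analyticOnNhd_const
        | exact hexp _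
        | exact (hexp _).add analyticOnNhd_const
        | exact analyticOnNhd_const.sub (hexp _)
        | exact analyticOnNhd_const.sub (analyticOnNhd_const.mul (hexp _))
        | exact analyticOnNhd_const.add (analyticOnNhd_const.mul (hexp _))
        | exact (hexp _).neg
    exact ((h2 0).mul (ih 0 j)).add ((h2 1).mul (ih 1 j))

lemma analytic_comm (κ A B C D : ℝ) (u v : List (Fin 4)) :
    AnalyticOnNhd ℝ (fun L => comm (wmat (par κ A B C D L) u) (wmat (par κ A B C D L) v)) univ := by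
  have h : (fun L => comm (wmat (par κ A B C D L) u) (wmat (par κ A B C D L) v)) = fun L =>
      (wmat (par κ A B C D L) u 0 0 * wmat (par κ A B C D L) v 0 0 +
        wmat (par κ A B C D L) u 0 1 * wmat (par κ A B C D L) v 1 0 -
        (wmat (par κ A B C D L) v 0 0 * wmat (par κ A B C D L) u 0 0 +
        wmat (par κ A B C D L) v 0 1 * wmat (par κ A B C D L) u 1 0)) *
      (wmat (par κ A B C D L) u 1 0 * wmat (par κ A B C D L) v 0 1 +
        wmat (par κ A B C D L) u 1 1 * wmat (par κ A B C D L) v 1 1 -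
        (wmat (par κ A B C D L) v 1 0 * wmat (par κ A B C D L) u 0 1 +
        wmat (par κ A B C D L) v 1 1 * wmat (par κ A B C D L) u 1 1)) -
      (wmat (par κ A B C D L) u 0 0 * wmat (par κ A B C D L) v 0 1 +
        wmat (par κ A B C D L) u 0 1 * wmat (par κ A B C D L) v 1 1 -
        (wmat (par κ A B C D L) v 0 0 * wmat (par κ A B C D L) u 0 1 +
        wmat (par κ A B C D L) v 0 1 * wmat (par κ A B C D L) u 1 1)) *
      (wmat (par κ A B C D L) u 1 0 * wmat (par κ A B C D L) v 0 0 +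
        wmat (par κ A B C D L) u 1 1 * wmat (par κ A B C D L) v 1 0 -
        (wmat (par κ A B C D L) v 1 0 * wmat (par κ A B C D L) u 0 0 +
        wmat (par κ A B C D L) v 1 1 * wmat (par κ A B C D L) u 1 0)) := by
    funext L
    unfold comm
    rw [Matrix.det_fin_two]
    simp only [Matrix.sub_apply, Matrix.mul_apply, Fin.sum_univ_two]
  rw [h]
  have a := fun i j => analytic_wmat κ A B C D u i j
  have b := fun i j => analytic_wmat κ A B C D v i j
  exact ((((a 0 0).mul (b 0 0)).add ((a 0 1).mul (b 1 0))).sub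
    (((b 0 0).mul (a 0 0)).add ((b 0 1).mul (a 1 0)))).mul
    ((((a 1 0).mul (b 0 1)).add ((a 1 1).mul (b 1 1))).sub
    (((b 1 0).mul (a 0 1)).add ((b 1 1).mul (a 1 1)))) |>.sub
    (((((a 0 0).mul (b 0 1)).add ((a 0 1).mul (b 1 1))).sub
    (((b 0 0).mul (a 0 1)).add ((b 0 1).mul (a 1 1)))).mul
    ((((a 1 0).mul (b 0 0)).add ((a 1 1).mul (b 1 0))).sub
    (((b 1 0).mul (a 0 0)).add ((b 1 1).mul (a 1 0)))))

lemma comm_ne_zero {κ A B C D : ℝ} (h0 : 0 < κ) (h1 : κ ≤ 1 / 2) (hA : 0 < A) (hB : 0 < B)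
    (hC : 0 < C) (hD : 0 < D) (hI : Indep A B C D) (hI' : Indep B A C D) (u v : List (Fin 4))
    (hl : u.length = v.length) (hne : u ≠ v) :
    ∃ L : ℝ, comm (wmat (par κ A B C D L) u) (wmat (par κ A B C D L) v) ≠ 0 := by
  have hu : u ≠ [] := by
    rintro rfl
    exact hne (List.length_eq_zero_iff.1 hl.symm).symm
  have hv : v ≠ [] := by
    rintro rfl
    exact hne (List.length_eq_zero_iff.1 hl)
  have e1 := decode h0 h1 hA hB hC hD hI u v hl hne
  have e2 := decode h0 h1 hB hA hC hD hI' (dw u) (dw v) (by rw [dw_length, dw_length, hl])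
    (fun h => hne (dw_inj h))
  obtain ⟨L, hP, g1, g2⟩ := ((good_par h0 h1 hA hB hC hD).and (e1.and e2)).exists
  refine ⟨L, fun hc => ?_⟩
  rcases fix_of_comm hP hu hv hc with ⟨p, hp, h⟩ | ⟨s, hs, h⟩
  · exact g1 p hp h
  · have hsw : swPar (par κ A B C D L) = par κ B A C D L := rfl
    have k1 := gg_dual hP u hs
    have k2 := gg_dual hP v hs
    rw [h.1, hsw] at k1
    rw [h.2, hsw] at k2
    exact g2 (gg κ s) (gg_mem h0 hs) ⟨k1.symm, k2.symm⟩

/-- Existence of a generic parameter beyond any bound. -/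
theorem exists_generic {κ A B C D : ℝ} (h0 : 0 < κ) (h1 : κ ≤ 1 / 2) (hA : 0 < A) (hB : 0 < B)
    (hC : 0 < C) (hD : 0 < D) (hI : Indep A B C D) (hI' : Indep B A C D) (L₀ : ℝ) :
    ∃ L : ℝ, L₀ < L ∧ ∀ u v : List (Fin 4), u.length = v.length → u ≠ v →
      comm (wmat (par κ A B C D L) u) (wmat (par κ A B C D L) v) ≠ 0 := by
  let S : Set ℝ := ⋃ q : {q : List (Fin 4) × List (Fin 4) // q.1.length = q.2.length ∧ q.1 ≠ q.2},
    {L | comm (wmat (par κ A B C D L) q.1.1) (wmat (par κ A B C D L) q.1.2) = 0}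
  have hS : S.Countable := by
    apply Set.countable_iUnion
    rintro ⟨⟨u, v⟩, hl, hne⟩
    obtain ⟨L, hL⟩ := comm_ne_zero h0 h1 hA hB hC hD hI hI' u v hl hne
    exact countable_zeros (analytic_comm κ A B C D u v) hL
  have hun : ¬ (Ioi L₀).Countable := by
    intro hc
    have h2 := Cardinal.mk_Ioi_real L₀
    have h3 := (Cardinal.le_aleph0_iff_set_countable.2 hc)
    rw [h2] at h3
    exact absurd h3 (not_le.2 Cardinal.aleph0_lt_continuum)
  obtain ⟨L, hL, hL2⟩ : ∃ L, L ∈ Ioi L₀ ∧ L ∉ S := by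
    by_contra hcon
    push Not at hcon
    exact hun (hS.mono hcon)
  refine ⟨L, hL, fun u v hl hne hc => hL2 ?_⟩
  exact Set.mem_iUnion.2 ⟨⟨(u, v), hl, hne⟩, hc⟩

end Pool.Agent.MP_6f21ce_an
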