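import Pool.Agent.MP_6f21ce_an.Generic

set_option autoImplicit false

namespace Pool.Agent.MP_6f21ce_an

open Set Filter Matrix Topology

/-- The linearising coordinate. -/
noncomputable def coord (p x z : ℝ) : ℝ := (z - p) / (1 + x * z)

/-- Data of a word: fixed point `p`, dual fixed point giving `x`, and multiplier. -/
lemma word_data {P : Par} (hP : Good P) (w : List (Fin 4)) :
    ∃ p ∈ Icc (0 : ℝ) 1, ∃ x ∈ Icc (0 : ℝ) (1 / 2), ∃ n m₀ : ℝ,
      ![x, 1] ᵥ* wmat P w = n • ![x, 1] ∧ wordMap (fm P) w p = p ∧ m₀ ≠ 0 ∧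
      ∀ z ∈ Icc (0 : ℝ) 1, coord p x (wordMap (fm P) w z) = m₀ * coord p x z := by
  obtain ⟨p, hp, hp2⟩ := exists_fix hP w
  obtain ⟨s, hs, hs2⟩ := exists_dual_fix hP w
  obtain ⟨m, hm, hR⟩ := wmat_right hP w hp
  obtain ⟨n, hn, hL⟩ := wmat_left hP w hs
  rw [hp2] at hR
  rw [hs2] at hL
  have hx : P.κ * s ∈ Icc (0 : ℝ) (1 / 2) := by
    refine ⟨mul_nonneg hP.κ0.le hs.1, ?_⟩
    have := hP.κ1
    have := hP.κ0
    nlinarith [hs.1, hs.2]
  set x := P.κ * s with hxdef
  have r0 := congrFun hR 0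
  have r1 := congrFun hR 1
  have l0 := congrFun hL 0
  have l1 := congrFun hL 1
  simp [Matrix.mulVec, Matrix.vecMul, dotProduct, Fin.sum_univ_two] at r0 r1 l0 l1
  have key : ∀ z ∈ Icc (0 : ℝ) 1, coord p x (wordMap (fm P) w z) =
      ((wmat P w 0 0 - p * wmat P w 1 0) / n) * coord p x z := by
    intro z hz
    obtain ⟨t, ht, hT⟩ := wmat_right hP w hz
    have t0 := congrFun hT 0
    have t1 := congrFun hT 1
    simp [Matrix.mulVec, dotProduct, Fin.sum_univ_two] at t0 t1
    set f := wordMap (fm P) w z with hf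
    have hfm : f ∈ Icc (0 : ℝ) 1 := word_mem hP w hz
    have e1 : t * (f - p) = (wmat P w 0 0 - p * wmat P w 1 0) * (z - p) := by
      linear_combination (-1 : ℝ) * t0 + p * t1 + r0 - p * r1
    have e2 : t * (1 + x * f) = n * (1 + x * z) := by
      linear_combination (-x) * t0 - t1 + z * l0 + l1
    have h1 : (1 + x * f) ≠ 0 := by
      have := mul_nonneg hx.1 hfm.1
      positivity
    have h2 : (1 + x * z) ≠ 0 := by
      have := mul_nonneg hx.1 hz.1
      positivity
    unfold coord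
    rw [div_mul_div_comm, div_eq_div_iff h1 (mul_ne_zero hn.ne' h2)]
    apply mul_left_cancel₀ ht.ne'
    linear_combination (n * (1 + x * z)) * e1 -
      (wmat P w 0 0 - p * wmat P w 1 0) * (z - p) * e2
  refine ⟨p, hp, x, hx, n, _, hL, hp2, ?_, key⟩
  -- the multiplier does not vanish
  intro h0
  have hz : ∃ z ∈ Icc (0 : ℝ) 1, z ≠ p := by
    by_cases h : p = 0
    · exact ⟨1, ⟨zero_le_one, le_rfl⟩, by rw [h]; norm_num⟩
    · exact ⟨0, ⟨le_rfl, zero_le_one⟩, fun h' => h h'.symm⟩
  obtain ⟨z, hz, hzp⟩ := hz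
  have h1 := key z hz
  rw [h0, zero_mul] at h1
  have hfm : wordMap (fm P) w z ∈ Icc (0 : ℝ) 1 := word_mem hP w hz
  have h2 : (1 + x * wordMap (fm P) w z) ≠ 0 := by
    have := mul_nonneg hx.1 hfm.1
    positivity
  unfold coord at h1
  rw [div_eq_zero_iff] at h1
  have h3 : wordMap (fm P) w z - p = 0 := h1.resolve_right h2
  have h4 : wordMap (fm P) w z = wordMap (fm P) w p := by rw [hp2]; linarith
  exact hzp (word_inj hP w hz hp h4)

/-- Iterates. -/
lemma iter_mem {P : Par} (hP : Good P) (w : List (Fin 4)) {z : ℝ} (hz : z ∈ Icc (0 : ℝ) 1)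
    (j : ℕ) : (wordMap (fm P) w)^[j] z ∈ Icc (0 : ℝ) 1 := by
  induction j with
  | zero => exact hz
  | succ j ih =>
    rw [Function.iterate_succ_apply']
    exact word_mem hP w ih

lemma iter_tendsto {P : Par} (hP : Good P) {w : List (Fin 4)} (hw : w ≠ []) {p z : ℝ}
    (hp : p ∈ Icc (0 : ℝ) 1) (hz : z ∈ Icc (0 : ℝ) 1) (hfix : wordMap (fm P) w p = p) :
    Tendsto (fun j => (wordMap (fm P) w)^[j] z) atTop (𝓝 p) := by
  have hb : ∀ j, |(wordMap (fm P) w)^[j] z - p| ≤ (3 / 4) ^ j * |z - p| := by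
    intro j
    induction j with
    | zero => simp
    | succ j ih =>
      rw [Function.iterate_succ_apply']
      have h1 := word_lip hP w (iter_mem hP w hz j) hp
      rw [hfix] at h1
      have h2 : ((3 : ℝ) / 4) ^ w.length ≤ 3 / 4 := by
        have : 1 ≤ w.length := List.length_pos_iff.2 hw
        calc ((3 : ℝ) / 4) ^ w.length ≤ (3 / 4) ^ 1 :=
              pow_le_pow_of_le_one (by norm_num) (by norm_num) this
          _ = 3 / 4 := by norm_num
      calc _ ≤ _ := h1
        _ ≤ 3 / 4 * ((3 / 4) ^ j * |z - p|) := by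
            apply mul_le_mul h2 ih (abs_nonneg _) (by norm_num)
        _ = (3 / 4) ^ (j + 1) * |z - p| := by rw [pow_succ]; ring
  rw [tendsto_iff_norm_sub_tendsto_zero]
  refine squeeze_zero (fun j => norm_nonneg _) hb ?_
  have := (tendsto_pow_atTop_nhds_zero_of_lt_one (r := (3 / 4 : ℝ)) (by norm_num)
    (by norm_num)).mul_const |z - p|
  simpa using this

lemma coord_iter {P : Par} (hP : Good P) (w : List (Fin 4)) {p x m₀ : ℝ}
    (hc : ∀ z ∈ Icc (0 : ℝ) 1, coord p x (wordMap (fm P) w z) = m₀ * coord p x z) {z : ℝ}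
    (hz : z ∈ Icc (0 : ℝ) 1) (j : ℕ) :
    coord p x ((wordMap (fm P) w)^[j] z) = m₀ ^ j * coord p x z := by
  induction j with
  | zero => simp
  | succ j ih =>
    rw [Function.iterate_succ_apply', hc _ (iter_mem hP w hz j), ih, pow_succ]
    ring

/-- An analytic injective map conjugating a word to a similarity is a power of the linearising
coordinate up to an affine map. -/
lemma linearization {P : Par} (hP : Good P) {w : List (Fin 4)} (hw : w ≠ []) {p x m₀ : ℝ}
    (hp : p ∈ Icc (0 : ℝ) 1) (hx : x ∈ Icc (0 : ℝ) (1 / 2))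
    (hfix : wordMap (fm P) w p = p)
    (hc : ∀ z ∈ Icc (0 : ℝ) 1, coord p x (wordMap (fm P) w z) = m₀ * coord p x z)
    {g : ℝ → ℝ} (hg : AnalyticOnNhd ℝ g (Icc 0 1)) (hinj : InjOn g (Icc 0 1)) {l t : ℝ}
    (hl : l ≠ 0) (hgl : ∀ z ∈ Icc (0 : ℝ) 1, g (wordMap (fm P) w z) = l * g z + t) :
    ∃ k : ℕ, ∃ c : ℝ, 1 ≤ k ∧ c ≠ 0 ∧ ∀ z ∈ Icc (0 : ℝ) 1, g z = g p + c * coord p x z ^ k := by
  set f := wordMap (fm P) w with hf
  let G : ℝ → ℝ := fun z => g z - g p
  have hG : AnalyticAt ℝ G p := (hg p hp).sub analyticAt_const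
  have hGf : ∀ z ∈ Icc (0 : ℝ) 1, G (f z) = l * G z := by
    intro z hz
    have h1 := hgl z hz
    have h2 := hgl p hp
    rw [hfix] at h2
    show g (f z) - g p = l * (g z - g p)
    linarith
  have hGz : ∀ z ∈ Icc (0 : ℝ) 1, z ≠ p → G z ≠ 0 := by
    intro z hz hzp h0
    exact hzp (hinj hz hp (sub_eq_zero.1 h0))
  have hGit : ∀ z ∈ Icc (0 : ℝ) 1, ∀ j, G (f^[j] z) = l ^ j * G z := by
    intro z hz j
    induction j with
    | zero => simp
    | succ j ih =>
      rw [Function.iterate_succ_apply', hGf _ (iter_mem hP w hz j), ih, pow_succ]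
      ring
  -- a point different from p
  obtain ⟨z₁, hz₁, hz₁p⟩ : ∃ z ∈ Icc (0 : ℝ) 1, z ≠ p := by
    by_cases h : p = 0
    · exact ⟨1, ⟨zero_le_one, le_rfl⟩, by rw [h]; norm_num⟩
    · exact ⟨0, ⟨le_rfl, zero_le_one⟩, fun h' => h h'.symm⟩
  have hnz : ¬ ∀ᶠ z in 𝓝 p, G z = 0 := by
    intro h
    have h1 := (iter_tendsto hP hw hp hz₁ hfix).eventually h
    obtain ⟨j, hj⟩ := h1.exists
    rw [← hf, hGit z₁ hz₁ j] at hj
    rcases mul_eq_zero.1 hj with h2 | h2
    · exact absurd h2 (pow_ne_zero j hl)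
    · exact hGz z₁ hz₁ hz₁p h2
  obtain ⟨k, h, hh, hh0, hev⟩ := hG.exists_eventuallyEq_pow_smul_nonzero_iff.2 hnz
  have hk : 1 ≤ k := by
    by_contra hk
    have hk0 : k = 0 := by omega
    subst hk0
    have h1 := hev.self_of_nhds
    simp at h1
    apply hh0
    rw [← h1]
    show g p - g p = 0
    ring
  have hxp : (1 + x * p) ≠ 0 := by
    have := mul_nonneg hx.1 hp.1
    positivity
  refine ⟨k, (1 + x * p) ^ k * h p, hk, mul_ne_zero (pow_ne_zero k hxp) hh0, ?_⟩
  intro z hz
  by_cases hzp : z = p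
  · subst hzp
    have : coord z x z = 0 := by simp [coord]
    rw [this, zero_pow (by omega)]
    ring
  have hlim := iter_tendsto hP hw hp hz hfix
  rw [← hf] at hlim
  have hev2 := hlim.eventually hev
  have hM : coord p x z ≠ 0 := by
    unfold coord
    apply div_ne_zero (sub_ne_zero.2 hzp)
    have := mul_nonneg hx.1 hz.1
    positivity
  -- the sequence a_j
  let a : ℕ → ℝ := fun j => coord p x z ^ k * ((1 + x * f^[j] z) ^ k * h (f^[j] z))
  have ha : Tendsto a atTop (𝓝 (coord p x z ^ k * ((1 + x * p) ^ k * h p))) := by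
    apply Tendsto.const_mul
    apply Tendsto.mul
    · exact (tendsto_const_nhds.add (hlim.const_mul x)).pow k
    · exact hh.continuousAt.tendsto.comp hlim
  have hane : coord p x z ^ k * ((1 + x * p) ^ k * h p) ≠ 0 :=
    mul_ne_zero (pow_ne_zero k hM) (mul_ne_zero (pow_ne_zero k hxp) hh0)
  have hrel : ∀ᶠ j in atTop, (m₀ ^ k / l) ^ j * a j = G z := by
    filter_upwards [hev2] with j hj
    rw [hGit z hz j] at hj
    have h1 := coord_iter hP w hc hz j
    rw [← hf] at h1
    have hfj : f^[j] z ∈ Icc (0 : ℝ) 1 := iter_mem hP w hz j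
    have h2 : (1 + x * f^[j] z) ≠ 0 := by
      have := mul_nonneg hx.1 hfj.1
      positivity
    have h3 : f^[j] z - p = m₀ ^ j * coord p x z * (1 + x * f^[j] z) := by
      rw [← h1]
      unfold coord
      rw [div_mul_cancel₀ _ h2]
    rw [h3] at hj
    have h4 : l ^ j ≠ 0 := pow_ne_zero j hl
    have h5 : G z = (m₀ ^ j * coord p x z * (1 + x * f^[j] z)) ^ k * h (f^[j] z) / l ^ j := by
      rw [eq_div_iff h4, mul_comm]
      exact hj
    rw [h5]
    show (m₀ ^ k / l) ^ j * (coord p x z ^ k * ((1 + x * f^[j] z) ^ k * h (f^[j] z))) = _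
    rw [div_pow, mul_pow, mul_pow, ← pow_mul, ← pow_mul, mul_comm k j]
    ring
  have hGne : G z ≠ 0 := hGz z hz hzp
  have hr : Tendsto (fun j => (m₀ ^ k / l) ^ j) atTop
      (𝓝 (G z / (coord p x z ^ k * ((1 + x * p) ^ k * h p)))) := by
    have h1 : Tendsto (fun j => G z / a j) atTop
        (𝓝 (G z / (coord p x z ^ k * ((1 + x * p) ^ k * h p)))) :=
      tendsto_const_nhds.div ha hane
    refine h1.congr' ?_
    filter_upwards [hrel, ha.eventually_ne hane] with j h2 h3
    rw [← h2]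
    field_simp
  have hr1 : m₀ ^ k / l = 1 := by
    have h1 := (tendsto_add_atTop_iff_nat 1).2 hr
    have h2 : Tendsto (fun j => (m₀ ^ k / l) ^ (j + 1)) atTop
        (𝓝 (m₀ ^ k / l * (G z / (coord p x z ^ k * ((1 + x * p) ^ k * h p))))) := by
      have := hr.const_mul (m₀ ^ k / l)
      refine this.congr ?_
      intro j
      rw [pow_succ]
      ring
    have h3 := tendsto_nhds_unique h1 h2
    have h4 : G z / (coord p x z ^ k * ((1 + x * p) ^ k * h p)) ≠ 0 := div_ne_zero hGne hane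
    have h5 : (m₀ ^ k / l - 1) * (G z / (coord p x z ^ k * ((1 + x * p) ^ k * h p))) = 0 := by
      linarith
    rcases mul_eq_zero.1 h5 with h6 | h6
    · linarith
    · exact absurd h6 h4
  have hfin : G z = coord p x z ^ k * ((1 + x * p) ^ k * h p) := by
    rw [hr1] at hr
    simp only [one_pow] at hr
    have h1 := tendsto_nhds_unique hr tendsto_const_nhds
    rw [div_eq_one_iff_eq hane] at h1
    exact h1
  have h1 : g z = g p + G z := by
    show g z = g p + (g z - g p)
    ring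
  rw [h1, hfin]
  ring

/-- Two representations force equal parameters `x`. -/
lemma x_eq {g : ℝ → ℝ} {p x p' x' e e' c c' : ℝ} {k k' : ℕ} (hp : p ∈ Icc (0 : ℝ) 1)
    (hx : x ∈ Icc (0 : ℝ) (1 / 2)) (hp' : p' ∈ Icc (0 : ℝ) 1) (hx' : x' ∈ Icc (0 : ℝ) (1 / 2))
    (hk : 1 ≤ k) (hk' : 1 ≤ k') (hc : c ≠ 0) (hc' : c' ≠ 0)
    (h1 : ∀ z ∈ Icc (0 : ℝ) 1, g z = e + c * coord p x z ^ k)
    (h2 : ∀ z ∈ Icc (0 : ℝ) 1, g z = e' + c' * coord p' x' z ^ k') : x = x' := by
  open Polynomial in
  let Q : ℝ[X] := (C e * (1 + C x * X) ^ k + C c * (X - C p) ^ k) * (1 + C x' * X) ^ k'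
  open Polynomial in
  let Q' : ℝ[X] := (C e' * (1 + C x' * X) ^ k' + C c' * (X - C p') ^ k') * (1 + C x * X) ^ k
  have hev : ∀ z, Q.eval z = (e * (1 + x * z) ^ k + c * (z - p) ^ k) * (1 + x' * z) ^ k' := by
    intro z
    simp [Q]
  have hev' : ∀ z, Q'.eval z =
      (e' * (1 + x' * z) ^ k' + c' * (z - p') ^ k') * (1 + x * z) ^ k := by
    intro z
    simp [Q']
  have hQ : Q = Q' := by
    apply Polynomial.eq_of_infinite_eval_eq
    refine Set.Infinite.mono (s := Icc (0 : ℝ) 1) ?_ (Icc_infinite zero_lt_one)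
    intro z hz
    show Q.eval z = Q'.eval z
    rw [hev, hev']
    have ha : (1 + x * z) ≠ 0 := by
      have := mul_nonneg hx.1 hz.1
      positivity
    have hb : (1 + x' * z) ≠ 0 := by
      have := mul_nonneg hx'.1 hz.1
      positivity
    have h3 : e + c * coord p x z ^ k = e' + c' * coord p' x' z ^ k' := by
      rw [← h1 z hz, ← h2 z hz]
    have h4 : (e * (1 + x * z) ^ k + c * (z - p) ^ k) = (e + c * coord p x z ^ k) *
        (1 + x * z) ^ k := by
      unfold coord
      rw [div_pow, add_mul, mul_assoc, div_mul_cancel₀ _ (pow_ne_zero k ha)]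
    have h5 : (e' * (1 + x' * z) ^ k' + c' * (z - p') ^ k') = (e' + c' * coord p' x' z ^ k') *
        (1 + x' * z) ^ k' := by
      unfold coord
      rw [div_pow, add_mul, mul_assoc, div_mul_cancel₀ _ (pow_ne_zero k' hb)]
    rw [h4, h5, h3]
    ring
  have hall : ∀ z, (e * (1 + x * z) ^ k + c * (z - p) ^ k) * (1 + x' * z) ^ k' =
      (e' * (1 + x' * z) ^ k' + c' * (z - p') ^ k') * (1 + x * z) ^ k := by
    intro z
    rw [← hev, ← hev', hQ]
  -- evaluation at the pole
  have key : ∀ (x x' p c e e' c' p' : ℝ) (k k' : ℕ), 0 < x → 0 ≤ p → 1 ≤ k → c ≠ 0 →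
      (∀ z, (e * (1 + x * z) ^ k + c * (z - p) ^ k) * (1 + x' * z) ^ k' =
      (e' * (1 + x' * z) ^ k' + c' * (z - p') ^ k') * (1 + x * z) ^ k) → x = x' := by
    intro x x' p c e e' c' p' k k' hx hp hk hc hall
    have h3 := hall (-(1 / x))
    have h4 : 1 + x * (-(1 / x)) = 0 := by field_simp; ring
    rw [h4, zero_pow (by omega), mul_zero, mul_zero, zero_add] at h3
    rcases mul_eq_zero.1 h3 with h5 | h5
    · rcases mul_eq_zero.1 h5 with h6 | h6
      · exact absurd h6 hc
      · have h7 := pow_eq_zero_iff (by omega) |>.1 h6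
        have : 0 < 1 / x := by positivity
        linarith
    · have h7 : 1 + x' * (-(1 / x)) = 0 := by
        by_contra hne
        exact pow_ne_zero k' hne h5
      field_simp at h7
      linarith
  rcases eq_or_lt_of_le hx.1 with h3 | h3
  · rcases eq_or_lt_of_le hx'.1 with h4 | h4
    · rw [← h3, ← h4]
    · exact (key x' x p' c' e' e c p k' k h4 hp'.1 hk' hc' (fun z => (hall z).symm)).symm
  · exact key x x' p c e e' c' p' k k' h3 hp.1 hk hc hall

/-- No sub-conjugacy for generic parameters. -/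
theorem not_subConj {P : Par} (hP : Good P)
    (hgen : ∀ u v : List (Fin 4), u.length = v.length → u ≠ v →
      comm (wmat P u) (wmat P v) ≠ 0) : ¬ SubConjugated (fm P) := by
  rintro ⟨u, v, hne, hl, g, hg, hinj, l₁, l₂, t₁, t₂, _, hl₁, _, hl₂, hall⟩
  have hu : u ≠ [] := by
    rintro rfl
    exact hne (List.length_eq_zero_iff.1 hl.symm).symm
  have hv : v ≠ [] := by
    rintro rfl
    exact hne (List.length_eq_zero_iff.1 hl)
  obtain ⟨p, hp, x, hx, n, m₀, hL, hfix, _, hc⟩ := word_data hP u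
  obtain ⟨p', hp', x', hx', n', m₀', hL', hfix', _, hc'⟩ := word_data hP v
  obtain ⟨k, c, hk, hcne, h1⟩ := linearization hP hu hp hx hfix hc hg hinj hl₁
    (fun z hz => (hall z hz).1)
  obtain ⟨k', c', hk', hcne', h2⟩ := linearization hP hv hp' hx' hfix' hc' hg hinj hl₂
    (fun z hz => (hall z hz).2)
  have hxx := x_eq hp hx hp' hx' hk hk' hcne hcne' h1 h2
  subst hxx
  exact hgen u v hl hne (comm_eq_zero_of_left hL hL')

lemma not_id {P : Par} (hP : Good P) {w : List (Fin 4)} (hw : w ≠ [])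
    (h : ∀ z ∈ Icc (0 : ℝ) 1, wordMap (fm P) w z = z) : False := by
  have h0 := h 0 ⟨le_rfl, zero_le_one⟩
  have h1 := h 1 ⟨zero_le_one, le_rfl⟩
  have hl := word_lip hP w (x := 1) (y := 0) ⟨zero_le_one, le_rfl⟩ ⟨le_rfl, zero_le_one⟩
  rw [h0, h1] at hl
  have h3 : ((3 : ℝ) / 4) ^ w.length < 1 :=
    pow_lt_one₀ (by norm_num) (by norm_num) (by
      have := List.length_pos_iff.2 hw
      omega)
  norm_num at hl
  linarith

/-- No exact overlap for generic parameters. -/
theorem not_overlap {P : Par} (hP : Good P)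
    (hgen : ∀ u v : List (Fin 4), u.length = v.length → u ≠ v →
      comm (wmat P u) (wmat P v) ≠ 0) : ¬ HasExactOverlap (fm P) := by
  have hsame : ∀ u v : List (Fin 4), u.length = v.length → u ≠ v →
      ¬ EqOn (wordMap (fm P) u) (wordMap (fm P) v) (Icc 0 1) := by
    intro u v hl hne heq
    have hu : u ≠ [] := by
      rintro rfl
      exact hne (List.length_eq_zero_iff.1 hl.symm).symm
    obtain ⟨p, hp, x, hx, n, m₀, hL, hfix, hm₀, hc⟩ := word_data hP u
    apply not_subConj hP hgen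
    have hden : ∀ z ∈ Icc (0 : ℝ) 1, (1 + x * z) ≠ 0 := by
      intro z hz
      have := mul_nonneg hx.1 hz.1
      positivity
    have hm1 : |m₀| < 1 := by
      obtain ⟨z₁, hz₁, hz₁p⟩ : ∃ z ∈ Icc (0 : ℝ) 1, z ≠ p := by
        by_cases h : p = 0
        · exact ⟨1, ⟨zero_le_one, le_rfl⟩, by rw [h]; norm_num⟩
        · exact ⟨0, ⟨le_rfl, zero_le_one⟩, fun h' => h h'.symm⟩
      have hM : coord p x z₁ ≠ 0 := div_ne_zero (sub_ne_zero.2 hz₁p) (hden z₁ hz₁)
      have h1 : Tendsto (fun j => coord p x ((wordMap (fm P) u)^[j] z₁)) atTop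
          (𝓝 (coord p x p)) := by
        have hcont : ContinuousAt (coord p x) p := by
          exact ContinuousAt.div (f := fun z : ℝ => z - p) (g := fun z : ℝ => 1 + x * z)
            (by fun_prop) (by fun_prop) (hden p hp)
        exact hcont.tendsto.comp (iter_tendsto hP hu hp hz₁ hfix)
      have h2 : coord p x p = 0 := by simp [coord]
      rw [h2] at h1
      have h3 : Tendsto (fun j => m₀ ^ j) atTop (𝓝 0) := by
        have h4 : Tendsto (fun j => coord p x ((wordMap (fm P) u)^[j] z₁) / coord p x z₁) atTop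
            (𝓝 (0 / coord p x z₁)) := h1.div_const _
        rw [zero_div] at h4
        refine h4.congr ?_
        intro j
        rw [coord_iter hP u hc hz₁ j]
        field_simp
      rwa [tendsto_pow_atTop_nhds_zero_iff] at h3
    refine ⟨u, v, hne, hl, coord p x, ?_, ?_, m₀, m₀, 0, 0, abs_lt.1 hm1, hm₀, abs_lt.1 hm1, hm₀,
      ?_⟩
    · intro z hz
      exact AnalyticAt.div (f := fun z : ℝ => z - p) (g := fun z : ℝ => 1 + x * z)
        (by fun_prop) (by fun_prop) (hden z hz)
    · intro a ha b hb hab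
      unfold coord at hab
      rw [div_eq_div_iff (hden a ha) (hden b hb)] at hab
      have h1 : (a - b) * (1 + x * p) = 0 := by linear_combination hab
      have h2 := hden p hp
      rcases mul_eq_zero.1 h1 with h3 | h3
      · linarith
      · exact absurd h3 h2
    · intro z hz
      refine ⟨by rw [hc z hz]; ring, ?_⟩
      rw [← heq hz, hc z hz]
      ring
  have hlt : ∀ u v : List (Fin 4), u.length < v.length →
      ¬ EqOn (wordMap (fm P) u) (wordMap (fm P) v) (Icc 0 1) := by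
    intro u v hl heq
    by_cases huv : u ++ v = v ++ u
    · have hpre : u <+: v := by
        apply List.prefix_of_prefix_length_le (l₃ := u ++ v) (List.prefix_append u v)
        · rw [huv]; exact List.prefix_append v u
        · exact hl.le
      obtain ⟨v', hv'⟩ := hpre
      have hv'ne : v' ≠ [] := by
        rintro rfl
        rw [List.append_nil] at hv'
        rw [hv'] at hl
        exact lt_irrefl _ hl
      apply not_id hP hv'ne
      intro z hz
      have h1 := heq hz
      rw [← hv', word_append] at h1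
      exact (word_inj hP u hz (word_mem hP v' hz) h1).symm
    · apply hsame (u ++ v) (v ++ u) (by simp [add_comm]) huv
      intro z hz
      rw [word_append, word_append]
      have h1 := heq (word_mem hP v hz)
      rw [h1, heq hz]
  rintro ⟨u, v, hne, heq⟩
  rcases lt_trichotomy u.length v.length with h | h | h
  · exact hlt u v h heq
  · exact hsame u v h hne heq
  · exact hlt v u h heq.symm

end Pool.Agent.MP_6f21ce_an
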